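import Mathlib

/-!
# Completely multiplicative products

`cm f n = ∏_{p ^ a ∥ n} f p ^ a`.
-/

set_option autoImplicit false

namespace Pool.Agent.R888.CM

open Finset Filter Topology
open scoped Classical

/-- the completely multiplicative function with values `f p` at the primes -/
noncomputable def cm (f : ℕ → ℝ) (n : ℕ) : ℝ := ∏ p ∈ n.primeFactors, f p ^ n.factorization p

lemma cm_eq (f : ℕ → ℝ) (n : ℕ) : cm f n = n.factorization.prod (fun p a => f p ^ a) := rfl

@[simp] lemma cm_one (f : ℕ → ℝ) : cm f 1 = 1 := by simp [cm]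

lemma cm_mul (f : ℕ → ℝ) {m n : ℕ} (hm : m ≠ 0) (hn : n ≠ 0) :
    cm f (m * n) = cm f m * cm f n := by
  rw [cm_eq, cm_eq, cm_eq, Nat.factorization_mul hm hn]
  exact Finsupp.prod_add_index' (fun p => pow_zero _) (fun p a b => pow_add _ _ _)

lemma cm_prime (f : ℕ → ℝ) {p : ℕ} (hp : p.Prime) : cm f p = f p := by
  unfold cm
  rw [hp.primeFactors, prod_singleton, hp.factorization_self, pow_one]

lemma cm_congr {f g : ℕ → ℝ} {n : ℕ} (h : ∀ p ∈ n.primeFactors, f p = g p) : cm f n = cm g n := by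
  unfold cm
  exact prod_congr rfl fun p hp => by rw [h p hp]

lemma cm_nonneg {f : ℕ → ℝ} {n : ℕ} (h : ∀ p ∈ n.primeFactors, 0 ≤ f p) : 0 ≤ cm f n :=
  prod_nonneg fun p hp => pow_nonneg (h p hp) _

lemma cm_pos {f : ℕ → ℝ} {n : ℕ} (h : ∀ p ∈ n.primeFactors, 0 < f p) : 0 < cm f n :=
  prod_pos fun p hp => pow_pos (h p hp) _

lemma one_le_cm {f : ℕ → ℝ} {n : ℕ} (h : ∀ p ∈ n.primeFactors, 1 ≤ f p) : 1 ≤ cm f n := by
  have h1 := Finset.prod_le_prod (s := n.primeFactors) (f := fun _ => (1 : ℝ))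
    (g := fun p => f p ^ n.factorization p) (fun _ _ => zero_le_one)
    (fun p hp => one_le_pow₀ (h p hp))
  rw [prod_const_one] at h1
  exact h1

lemma cm_mono {f g : ℕ → ℝ} {n : ℕ} (h0 : ∀ p ∈ n.primeFactors, 0 ≤ f p)
    (h : ∀ p ∈ n.primeFactors, f p ≤ g p) : cm f n ≤ cm g n :=
  Finset.prod_le_prod (fun p hp => pow_nonneg (h0 p hp) _)
    (fun p hp => pow_le_pow_left₀ (h0 p hp) (h p hp) _)

lemma cm_mul_fun (f g : ℕ → ℝ) (n : ℕ) : cm (fun p => f p * g p) n = cm f n * cm g n := by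
  unfold cm
  rw [← prod_mul_distrib]
  exact prod_congr rfl fun p _ => mul_pow _ _ _

lemma cm_abs (f : ℕ → ℝ) (n : ℕ) : |cm f n| = cm (fun p => |f p|) n := by
  unfold cm
  rw [Finset.abs_prod]
  exact prod_congr rfl fun p _ => abs_pow _ _

lemma cm_id {n : ℕ} (hn : n ≠ 0) : cm (fun p => (p : ℝ)) n = n := by
  have h := Nat.prod_factorization_pow_eq_self hn
  have h2 : ((n.factorization.prod (fun p a => p ^ a) : ℕ) : ℝ) = n := by rw [h]
  rw [← h2]
  unfold cm Finsupp.prod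
  push_cast
  rfl

lemma cm_inv {n : ℕ} (hn : n ≠ 0) : cm (fun p => 1 / (p : ℝ)) n = 1 / n := by
  have h := cm_id hn
  have h1 : cm (fun p => 1 / (p : ℝ)) n * cm (fun p => (p : ℝ)) n = 1 := by
    rw [← cm_mul_fun]
    have h2 : cm (fun p : ℕ => 1 / (p : ℝ) * (p : ℝ)) n = cm (fun _ => 1) n := by
      apply cm_congr
      intro p hp
      have : (p : ℝ) ≠ 0 := by exact_mod_cast (Nat.prime_of_mem_primeFactors hp).ne_zero
      field_simp
    rw [h2]
    unfold cm
    simp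
  rw [h] at h1
  have hn' : (n : ℝ) ≠ 0 := by exact_mod_cast hn
  field_simp
  exact h1

lemma cm_rpow (θ : ℝ) {n : ℕ} (hn : n ≠ 0) : cm (fun p => (p : ℝ) ^ θ) n = (n : ℝ) ^ θ := by
  have h := cm_id hn
  unfold cm at h ⊢
  rw [← h, ← Real.finsetProd_rpow _ _ (fun p _ => by positivity)]
  refine prod_congr rfl fun p _ => ?_
  rw [← Real.rpow_natCast, ← Real.rpow_natCast, ← Real.rpow_mul (by positivity),
    ← Real.rpow_mul (by positivity), mul_comm]

lemma cm_sqf (f : ℕ → ℝ) {n : ℕ} (hn : Squarefree n) : cm f n = ∏ p ∈ n.primeFactors, f p := by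
  unfold cm
  refine prod_congr rfl fun p hp => ?_
  have h1 : n.factorization p = 1 := by
    have h2 := (Nat.squarefree_iff_factorization_le_one hn.ne_zero).1 hn p
    have h3 : 0 < n.factorization p :=
      (Nat.prime_of_mem_primeFactors hp).factorization_pos_of_dvd hn.ne_zero
        (Nat.dvd_of_mem_primeFactors hp)
    omega
  rw [h1, pow_one]

lemma cm_div (f : ℕ → ℝ) {n p : ℕ} (hp : p ∈ n.primeFactors) : f p * cm f (n / p) = cm f n := by
  have hpp := Nat.prime_of_mem_primeFactors hp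
  have hpn := Nat.dvd_of_mem_primeFactors hp
  have hn0 : n ≠ 0 := by
    intro h
    rw [h] at hp
    simp at hp
  have h1 : n / p ≠ 0 := by
    have := Nat.div_pos (Nat.le_of_dvd (Nat.pos_of_ne_zero hn0) hpn) hpp.pos
    omega
  have h2 : n = p * (n / p) := (Nat.mul_div_cancel' hpn).symm
  conv_rhs => rw [h2, cm_mul f hpp.ne_zero h1, cm_prime f hpp]

lemma mem_pf_of_div {n p q : ℕ} (hp : p ∈ n.primeFactors) (hq : q ∈ (n / p).primeFactors) :
    q ∈ n.primeFactors := by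
  have hpn := Nat.dvd_of_mem_primeFactors hp
  have hn0 : n ≠ 0 := by
    intro h
    rw [h] at hp
    simp at hp
  exact Nat.primeFactors_mono (Nat.div_dvd_of_dvd hpn) hn0 hq

/-- the prime factors of `n` with multiplicity -/
def I (n : ℕ) : Finset (Σ _ : ℕ, ℕ) := n.primeFactors.sigma (fun p => range (n.factorization p))

lemma prod_I (f : ℕ → ℝ) (n : ℕ) : ∏ x ∈ I n, f x.1 = cm f n := by
  unfold I cm
  rw [prod_sigma]
  refine prod_congr rfl fun p _ => ?_
  simp

lemma mem_I {n : ℕ} {x : Σ _ : ℕ, ℕ} (h : x ∈ I n) : x.1 ∈ n.primeFactors := by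
  unfold I at h
  rw [mem_sigma] at h
  exact h.1

/-- first order sums -/
lemma sum_I (u a : ℕ → ℝ) (n : ℕ) (ha : ∀ p ∈ n.primeFactors, 0 < a p) :
    ∑ x ∈ I n, u x.1 * ∏ y ∈ (I n).erase x, a y.1 =
      ∑ p ∈ n.primeFactors, (n.factorization p : ℝ) * (u p * cm a (n / p)) := by
  have h1 : ∀ x ∈ I n, u x.1 * ∏ y ∈ (I n).erase x, a y.1 = u x.1 * cm a (n / x.1) := by
    intro x hx
    have hx1 := mem_I hx
    congr 1
    have e1 := mul_prod_erase (I n) (fun y => a y.1) hx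
    have e2 := cm_div a hx1
    rw [prod_I, ← e2] at e1
    exact mul_left_cancel₀ (ha _ hx1).ne' e1
  rw [sum_congr rfl h1]
  unfold I
  rw [sum_sigma]
  refine sum_congr rfl fun p _ => ?_
  simp only [sum_const, card_range, nsmul_eq_mul]

end Pool.Agent.R888.CM
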