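import Pool.Agent.R888.CM.Split
import Pool.Agent.W76.MO.Stmts

/-!
# Completely multiplicative version of the statements of `W76.MO`
-/

set_option autoImplicit false

namespace Pool.Agent.R888.CM

open Finset Filter Topology
open scoped Classical
open Pool.Agent.W76.MO

/-- the conclusion: some completely multiplicative function with sum `0` has
`|S_f(N)| ≤ C N^(-1/2-c)` -/
def ConclCM : Prop := ∃ f : ℕ → ℂ, f 1 = 1 ∧ (∀ m n : ℕ, 1 ≤ m → 1 ≤ n → f (m * n) = f m * f n) ∧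
  Tendsto (fun N : ℕ => ∑ n ∈ Icc 1 N, f n) atTop (𝓝 0) ∧ ∃ c C : ℝ, 0 < c ∧ 0 < C ∧
  ∀ N : ℕ, 1 ≤ N → ‖∑ n ∈ Icc 1 N, f n‖ ≤ C * (N : ℝ) ^ (-(1 / 2 : ℝ) - c)

variable (E : Env)

/-- `∏_{p^a ∥ n} (1 + 2 p g(p))^a` -/
noncomputable def E3 (j n : ℕ) : ℝ := cm (fun p => 1 + 2 * (p * E.g j p)) n

/-- the `R`-rough elements of a cell -/
noncomputable def cs (R i k : ℕ) : Finset ℕ := (cell E.δ i k).filter (fun n => Rough R n)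

/-- (ES) the Euler product sum is small -/
def ESum : Prop := ∀ η : ℝ, 0 < η → ∃ R₀ : ℕ, ∀ R : ℕ, R₀ ≤ R → ∃ J : ℕ, ∀ j : ℕ, J ≤ j →
  ∀ M : ℕ, ∑ t ∈ (Icc 2 M).filter (fun t => Rough R t),
    E3 E j t / t * (t : ℝ) ^ (-E.δ / 2) ≤ η

/-- (UP) contribution of the large control primes of the first kind -/
def UPart : Prop := ∃ R₀ : ℕ, ∀ R : ℕ, R₀ ≤ R → ∃ J : ℕ, ∀ j : ℕ, J ≤ j → ∀ i : ℕ, j ≤ i →
  ∀ k : ℕ, k < nc E.δ i →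
    ∑ n ∈ cs E R i k, ∑ p ∈ n.primeFactors.filter (fun p : ℕ => (2 : ℝ) ^ (3 / 5 * (i : ℝ)) < p),
      E.gu j p * (E3 E j (n / p) / ((n / p : ℕ) : ℝ)) ≤
        (if k ∈ E.Bad i then 0 else E.w i) + E.w i / 16

/-- (HP) contribution of the host primes `> 2^(i/20)`, with multiplicity -/
def HPart : Prop := ∃ R₀ : ℕ, ∀ R : ℕ, R₀ ≤ R → ∃ J : ℕ, ∀ j : ℕ, J ≤ j → ∀ i : ℕ, j ≤ i →
  ∀ k : ℕ, k < nc E.δ i →
    ∑ n ∈ cs E R i k, ∑ q ∈ n.primeFactors.filter (fun q : ℕ => (2 : ℝ) ^ (1 / 20 * (i : ℝ)) < q),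
      (n.factorization q : ℝ) * (E.gh j q * (E3 E j (n / q) / ((n / q : ℕ) : ℝ))) ≤
        (if k ∈ E.Bad i then E.w i else 0) + E.w i / 16

/-- (SP) contribution of the small control primes -/
def SPart : Prop := ∃ J : ℕ, ∀ j : ℕ, J ≤ j → ∀ i : ℕ, j ≤ i → ∀ k : ℕ, k < nc E.δ i →
    ∑ n ∈ cell E.δ i k, (1 / (n : ℝ)) * cm (fun p => 1 + 2 * (p * E.gs j i p)) n ≤ E.w i / 16

/-- the part of the host sum which comes from the bad cell `(i', k')`, restricted to pairs `(n₁, n)`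
satisfying `P`; here `n₁` runs through the hosts of `(i', k')`, `n` through the cell `(i, k)` -/
noncomputable def HT (j R i k i' k' : ℕ) (P : ℕ → ℕ → Prop) : ℝ :=
  ∑ u ∈ ((E.Host j i' k') ×ˢ (cs E R i k)).filter (fun u : ℕ × ℕ =>
      lp u.1 ∣ u.2 ∧ (2 : ℝ) ^ (1 / 20 * (i : ℝ)) < lp u.1 ∧ P u.1 u.2),
    E.w i' / ((E.Host j i' k').card : ℝ) * ((u.1 : ℝ) / u.2) * E3 E j (u.2 / lp u.1)

/-- (H1) hosts of cells of scale `< (1-τ) i` -/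
def HP1 : Prop := ∃ J : ℕ, ∀ j : ℕ, J ≤ j → ∀ R i k : ℕ, j ≤ i → k < nc E.δ i →
  ∑ i' ∈ (range (2 * i + 3)).filter (fun i' : ℕ => j ≤ i' ∧ (i' : ℝ) < (1 - E.τ) * i),
    ∑ k' ∈ E.Bad i', HT E j R i k i' k' (fun _ _ => True) ≤ E.w i / 1280

/-- (HB) hosts of cells of scale `≥ (1-τ) i`, pairs with `n₁ ∤ n` -/
def HPB : Prop := ∃ J : ℕ, ∀ j : ℕ, J ≤ j → ∀ R i k : ℕ, j ≤ i → k < nc E.δ i →
  ∑ i' ∈ (range (2 * i + 3)).filter (fun i' : ℕ => j ≤ i' ∧ (1 - E.τ) * i ≤ (i' : ℝ)),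
    ∑ k' ∈ E.Bad i', HT E j R i k i' k' (fun a b => ¬ a ∣ b) ≤ E.w i / 1280

/-- (HA) hosts of cells of scale `≥ (1-τ) i`, pairs with `n₁ ∣ n` -/
def HPA : Prop := ∃ R₀ : ℕ, ∀ R : ℕ, R₀ ≤ R → ∃ J : ℕ, ∀ j : ℕ, J ≤ j → ∀ i k : ℕ, j ≤ i →
  k < nc E.δ i →
  (∑ i' ∈ (range (2 * i + 3)).filter (fun i' : ℕ => j ≤ i' ∧ (1 - E.τ) * i ≤ (i' : ℝ)),
    ∑ k' ∈ E.Bad i', HT E j R i k i' k' (fun a b => a = b) ≤
      (if k ∈ E.Bad i then E.w i else 0)) ∧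
  (∑ i' ∈ (range (2 * i + 3)).filter (fun i' : ℕ => j ≤ i' ∧ (1 - E.τ) * i ≤ (i' : ℝ)),
    ∑ k' ∈ E.Bad i', HT E j R i k i' k' (fun a b => a ∣ b ∧ a ≠ b) ≤ E.w i / 1280)

/-! ### general lemmas -/

variable {E}

lemma g_nonneg {j p : ℕ} (hgu : 0 ≤ E.gu j p) (hgh : 0 ≤ E.gh j p) : 0 ≤ E.g j p := by
  unfold Env.g; linarith

lemma E3_nonneg {j : ℕ} (hgu : ∀ p, 0 ≤ E.gu j p) (hgh : ∀ p, 0 ≤ E.gh j p) (n : ℕ) :
    0 ≤ E3 E j n := by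
  unfold E3
  apply cm_nonneg
  intro p _
  have := g_nonneg (hgu p) (hgh p)
  positivity

lemma E3_mul {j m n : ℕ} (hm : m ≠ 0) (hn : n ≠ 0) : E3 E j (m * n) = E3 E j m * E3 E j n :=
  cm_mul _ hm hn

@[simp] lemma E3_one {j : ℕ} : E3 E j 1 = 1 := cm_one _

lemma E3_free {j m : ℕ} (hgu : ∀ p, E.gu j p ≠ 0 → E.U j p) (hgh : ∀ p, E.gh j p ≠ 0 → E.H j p)
    (hm : ∀ p : ℕ, p.Prime → p ∣ m → ¬ E.U j p ∧ ¬ E.H j p) : E3 E j m = 1 := by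
  unfold E3
  have h : cm (fun p => 1 + 2 * (p * E.g j p)) m = cm (fun _ => 1) m := by
    apply cm_congr
    intro p hp
    have h1 := hm p (Nat.prime_of_mem_primeFactors hp) (Nat.dvd_of_mem_primeFactors hp)
    have e1 : E.gu j p = 0 := by
      by_contra hc; exact h1.1 (hgu p hc)
    have e2 : E.gh j p = 0 := by
      by_contra hc; exact h1.2 (hgh p hc)
    unfold Env.g
    rw [e1, e2]
    simp
  rw [h]
  unfold cm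
  simp

/-- bound for the factors of `E3` -/
theorem factor_le {j : ℕ} (hj : 2 ≤ j)
    (hgu : ∀ p : ℕ, E.gu j p ≠ 0 → E.U j p)
    (hgh : ∀ q : ℕ, E.gh j q ≠ 0 → E.H j q ∧ ¬ E.U j q ∧ 1 ≤ q * E.gh j q)
    (hU : ∀ p : ℕ, E.U j p → j - 1 ≤ Env.sc p ∧
      1 + 2 * (p * E.gu j p) ≤ (2 : ℝ) ^ (E.δ / 2 * Env.sc p) / (Env.sc p : ℝ) ^ 35)
    (hH : ∀ q : ℕ, E.gh j q ≠ 0 → (2 : ℝ) ^ ((j : ℝ) / 2) ≤ q ∧
      1 + 2 * (q * E.gh j q) ≤ (q : ℝ) ^ (9 * E.δ)) (p : ℕ) (hp : p.Prime) :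
    1 + 2 * (p * E.g j p) ≤ (p : ℝ) ^ (9 * E.δ) := by
  have hδ := E.hδ
  have hp1 : (1 : ℝ) ≤ p := by exact_mod_cast hp.one_lt.le
  unfold Env.g
  by_cases h1 : E.gu j p = 0
  · by_cases h2 : E.gh j p = 0
    · rw [h1, h2]
      simp only [add_zero, mul_zero]
      exact Real.one_le_rpow hp1 (by positivity)
    · rw [h1, zero_add]
      exact (hH p h2).2
  · have hu := hgu p h1
    have h2 : E.gh j p = 0 := by
      by_contra h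
      exact (hgh p h).2.1 hu
    rw [h2, add_zero]
    obtain ⟨h3, h4⟩ := hU p hu
    refine h4.trans ?_
    have h5 : 1 ≤ Env.sc p := by omega
    have h6 : (1 : ℝ) ≤ (Env.sc p : ℝ) ^ 35 := by
      apply one_le_pow₀
      exact_mod_cast h5
    have h7 : (2 : ℝ) ^ (E.δ / 2 * Env.sc p) / (Env.sc p : ℝ) ^ 35 ≤
        (2 : ℝ) ^ (E.δ / 2 * Env.sc p) := div_le_self (by positivity) h6
    refine h7.trans ?_
    have h8 : (2 : ℝ) ^ (E.δ / 2 * Env.sc p) = ((2 : ℝ) ^ (Env.sc p)) ^ (E.δ / 2) := by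
      rw [← Real.rpow_natCast 2 (Env.sc p), ← Real.rpow_mul (by norm_num)]
      ring_nf
    have h9 : ((2 : ℝ) ^ (Env.sc p)) ≤ p := by
      have : 2 ^ Nat.log 2 (p - 1) ≤ p - 1 := Nat.pow_log_le_self 2 (by have := hp.two_le; omega)
      have h : 2 ^ (Env.sc p) ≤ p := by
        unfold Env.sc
        omega
      exact_mod_cast h
    rw [h8]
    calc ((2 : ℝ) ^ (Env.sc p)) ^ (E.δ / 2) ≤ (p : ℝ) ^ (E.δ / 2) :=
          Real.rpow_le_rpow (by positivity) h9 (by positivity)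
      _ ≤ (p : ℝ) ^ (9 * E.δ) := Real.rpow_le_rpow_of_exponent_le hp1 (by linarith)

/-- bound for `E3` -/
theorem E3_le {j : ℕ}
    (h0 : ∀ p : ℕ, 0 ≤ E.gu j p) (h0' : ∀ q : ℕ, 0 ≤ E.gh j q)
    (hf : ∀ p : ℕ, p.Prime → 1 + 2 * (p * E.g j p) ≤ (p : ℝ) ^ (9 * E.δ)) {m : ℕ} (hm : m ≠ 0) :
    E3 E j m ≤ (m : ℝ) ^ (9 * E.δ) := by
  rw [← cm_rpow _ hm]
  unfold E3
  apply cm_mono
  · intro p _
    have : 0 ≤ E.g j p := g_nonneg (h0 p) (h0' p)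
    positivity
  · intro p hp
    exact hf p (Nat.prime_of_mem_primeFactors hp)

lemma w_nonneg (E : Env) (i : ℕ) : 0 ≤ E.w i := by
  unfold Env.w
  positivity

end Pool.Agent.R888.CM
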