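import Pool.Agent.R888.CM.Cm

/-!
# Euler product bound
-/

set_option autoImplicit false

namespace Pool.Agent.R888.CM

open Finset Filter Topology
open scoped Classical

/-- `cm` as a monoid homomorphism -/
noncomputable def cmHom (b : ℕ → ℝ) : ℕ →* ℝ where
  toFun n := if n = 0 then 0 else cm b n
  map_one' := by simp
  map_mul' m n := by
    by_cases hm : m = 0
    · simp [hm]
    · by_cases hn : n = 0
      · simp [hn]
      · simp [hm, hn, cm_mul b hm hn]

lemma sum_cm_le (a : ℕ → ℝ) (P T : Finset ℕ) (hP : ∀ p ∈ P, p.Prime) (ha0 : ∀ p ∈ P, 0 ≤ a p)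
    (ha1 : ∀ p ∈ P, a p ≤ 1 / 2) (hT : ∀ t ∈ T, t ≠ 0 ∧ t.primeFactors ⊆ P) :
    ∑ t ∈ T, cm a t ≤ Real.exp (2 * ∑ p ∈ P, a p) := by
  set b : ℕ → ℝ := fun p => if p ∈ P then a p else 0 with hb
  have hb0 : ∀ p, 0 ≤ b p := by
    intro p
    simp only [hb]
    split_ifs with h
    · exact ha0 p h
    · exact le_rfl
  have hb1 : ∀ p, b p ≤ 1 / 2 := by
    intro p
    simp only [hb]
    split_ifs with h
    · exact ha1 p h
    · norm_num
  have hprime : ∀ {p : ℕ}, p.Prime → ‖cmHom b p‖ < 1 := by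
    intro p hp
    have h1 : cmHom b p = b p := by
      show (if p = 0 then 0 else cm b p) = b p
      rw [if_neg hp.ne_zero, cm_prime b hp]
    rw [h1, Real.norm_eq_abs, abs_of_nonneg (hb0 p)]
    linarith [hb1 p]
  obtain ⟨-, hs⟩ := EulerProduct.summable_and_hasSum_factoredNumbers_prod_filter_prime_geometric
    (f := cmHom b) hprime P
  have hval : ∀ t ∈ T, cm a t = cmHom b t := by
    intro t ht
    show cm a t = (if t = 0 then 0 else cm b t)
    rw [if_neg (hT t ht).1]
    apply cm_congr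
    intro p hp
    simp only [hb]
    rw [if_pos ((hT t ht).2 hp)]
  have hmem : ∀ t ∈ T, t ∈ Nat.factoredNumbers P := by
    intro t ht
    rw [Nat.mem_factoredNumbers_iff_primeFactors_subset]
    exact ⟨(hT t ht).1, (hT t ht).2⟩
  have hnn : ∀ n : ℕ, 0 ≤ cmHom b n := by
    intro n
    show 0 ≤ (if n = 0 then 0 else cm b n)
    split_ifs
    · exact le_rfl
    · exact cm_nonneg fun p _ => hb0 p
  have h1 : ∑ t ∈ T, cm a t ≤ ∏ p ∈ P with p.Prime, (1 - cmHom b p)⁻¹ := by
    rw [sum_congr rfl hval]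
    have h2 := sum_le_hasSum (f := fun m : Nat.factoredNumbers P => cmHom b m)
      (T.subtype (fun n => n ∈ Nat.factoredNumbers P)) (fun m _ => hnn m) hs
    refine le_trans (le_of_eq ?_) h2
    rw [Finset.sum_subtype_of_mem (f := fun n => cmHom b n) hmem]
  refine h1.trans ?_
  rw [filter_true_of_mem hP]
  have h3 : ∏ p ∈ P, (1 - cmHom b p)⁻¹ ≤ ∏ p ∈ P, Real.exp (2 * a p) := by
    apply Finset.prod_le_prod
    · intro p hp
      have := hprime (hP p hp)
      rw [Real.norm_eq_abs, abs_lt] at this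
      exact inv_nonneg.2 (by linarith [this.2])
    · intro p hp
      have h4 : cmHom b p = a p := by
        show (if p = 0 then 0 else cm b p) = a p
        rw [if_neg (hP p hp).ne_zero, cm_prime b (hP p hp)]
        simp only [hb]
        rw [if_pos hp]
      rw [h4]
      have h5 := ha0 p hp
      have h6 := ha1 p hp
      have h7 := Real.add_one_le_exp (2 * a p)
      refine le_trans ?_ h7
      rw [inv_le_iff_one_le_mul₀ (by linarith)]
      nlinarith
  refine h3.trans (le_of_eq ?_)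
  rw [← Real.exp_sum, mul_sum]

lemma sum_cm_le' (a : ℕ → ℝ) (P T : Finset ℕ) (hP : ∀ p ∈ P, p.Prime) (ha0 : ∀ p ∈ P, 0 ≤ a p)
    (ha1 : ∀ p ∈ P, a p ≤ 1 / 2) (hT : ∀ t ∈ T, t ≠ 0 ∧ t.primeFactors ⊆ P) (h1 : 1 ∉ T) :
    ∑ t ∈ T, cm a t ≤ Real.exp (2 * ∑ p ∈ P, a p) - 1 := by
  have h := sum_cm_le a P (insert 1 T) hP ha0 ha1 (by
    intro t ht
    rw [mem_insert] at ht
    rcases ht with rfl | ht
    · simp
    · exact hT t ht)
  rw [sum_insert h1, cm_one] at h
  linarith

end Pool.Agent.R888.CM
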