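import Pool.Agent.R888.CM.Defs
import Pool.Agent.R888.CM.EP
import Pool.Agent.W280.MO.ES

/-!
# The Euler product sum is small
-/

set_option autoImplicit false

namespace Pool.Agent.R888.CM

open Finset Filter Topology
open scoped Classical
open Pool.Agent.W76.MO

theorem esum (E : Env) (hGB : E.GBounds) : ESum E := by
  intro η hη
  obtain ⟨J, hJ1, hJ⟩ := hGB
  set ε := min 1 η / 8 with hε
  have hm : 0 < min 1 η := lt_min one_pos hη
  have hε0 : 0 < ε := by positivity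
  obtain ⟨R₀, hR₀⟩ := Pool.Agent.W280.MO.tail_small E.hδ hε0
  refine ⟨R₀, fun R hR => ?_⟩
  obtain ⟨J', hJ'⟩ := exists_nat_gt (4 / ε)
  refine ⟨max J J', fun j hj M => ?_⟩
  obtain ⟨-, hgu, hgh, -, -, -, -, hsh, hsu⟩ := hJ j ((le_max_left _ _).trans hj)
  have hj0 : (0 : ℝ) < j := by
    have : 1 ≤ j := hJ1.trans ((le_max_left _ _).trans hj)
    exact_mod_cast this
  have hjε : 4 / (j : ℝ) ≤ ε := by
    have h1 : (J' : ℝ) ≤ j := by exact_mod_cast (le_max_right _ _).trans hj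
    have h2 : 4 / ε < j := hJ'.trans_le h1
    rw [div_lt_iff₀ hε0] at h2
    rw [div_le_iff₀ hj0]
    linarith
  set a : ℕ → ℝ := fun p => (1 + 2 * (p * E.g j p)) * (p : ℝ) ^ (-1 - E.δ / 2) with ha
  have hg0 : ∀ p, 0 ≤ E.g j p := fun p => add_nonneg (hgu p) (hgh p)
  have ha0 : ∀ p, 0 ≤ a p := fun p =>
    mul_nonneg (by have := hg0 p; positivity) (Real.rpow_nonneg (by positivity) _)
  set P : Finset ℕ := (Icc R M).filter Nat.Prime with hP
  -- the sum of the `a p`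
  have hsum : ∑ p ∈ P, a p ≤ 2 * ε := by
    have h1 : ∑ p ∈ P, (p : ℝ) ^ (-1 - E.δ / 2) ≤ ε := hR₀ P (fun p hp => by
      rw [hP, mem_filter, mem_Icc] at hp
      exact hR.trans hp.1.1)
    have h2 : ∀ p ∈ P, a p ≤ (p : ℝ) ^ (-1 - E.δ / 2) + 2 * (E.gu j p * (p : ℝ) ^ (-E.δ / 2)) +
        2 * ((p * E.gh j p) * (p : ℝ) ^ (-1 + E.τ / 4)) := by
      intro p hp
      rw [hP, mem_filter] at hp
      have hp1 : (1 : ℝ) ≤ p := by exact_mod_cast hp.2.one_lt.le
      have hp0 : (0 : ℝ) < p := by linarith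
      have e1 : (p : ℝ) * (p : ℝ) ^ (-1 - E.δ / 2) = (p : ℝ) ^ (-E.δ / 2) := by
        nth_rewrite 1 [← Real.rpow_one (p : ℝ)]
        rw [← Real.rpow_add hp0]
        congr 1; ring
      have e2 : (p : ℝ) ^ (-1 - E.δ / 2) ≤ (p : ℝ) ^ (-1 + E.τ / 4) :=
        Real.rpow_le_rpow_of_exponent_le hp1 (by have := E.hδ; have := E.hτ; linarith)
      have e3 : a p = (p : ℝ) ^ (-1 - E.δ / 2) +
          2 * (E.gu j p * ((p : ℝ) * (p : ℝ) ^ (-1 - E.δ / 2))) +
          2 * ((p * E.gh j p) * (p : ℝ) ^ (-1 - E.δ / 2)) := by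
        simp only [ha, Env.g]; ring
      rw [e3, e1]
      have e4 : (p * E.gh j p) * (p : ℝ) ^ (-1 - E.δ / 2) ≤
          (p * E.gh j p) * (p : ℝ) ^ (-1 + E.τ / 4) :=
        mul_le_mul_of_nonneg_left e2 (mul_nonneg hp0.le (hgh p))
      linarith
    refine (Finset.sum_le_sum h2).trans ?_
    rw [Finset.sum_add_distrib, Finset.sum_add_distrib, ← Finset.mul_sum, ← Finset.mul_sum]
    have h3 := hsu P
    have h4 := hsh P
    have h5 : 4 / (j : ℝ) = 4 * (1 / j) := by ring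
    linarith
  -- the terms
  have hterm : ∀ t ∈ (Icc 2 M).filter (fun t => Rough R t),
      E3 E j t / t * (t : ℝ) ^ (-E.δ / 2) = cm a t := by
    intro t ht
    rw [mem_filter, mem_Icc] at ht
    obtain ⟨⟨ht2, htM⟩, hro⟩ := ht
    have ht0 : (0 : ℝ) < t := by
      have : 0 < t := by omega
      exact_mod_cast this
    have e1 : (t : ℝ) ^ (-1 - E.δ / 2) = cm (fun p => (p : ℝ) ^ (-1 - E.δ / 2)) t :=
      (cm_rpow _ (by omega)).symm
    have e2 : E3 E j t / t * (t : ℝ) ^ (-E.δ / 2) = E3 E j t * (t : ℝ) ^ (-1 - E.δ / 2) := by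
      have e3 : (t : ℝ) ^ (-1 - E.δ / 2) = (t : ℝ)⁻¹ * (t : ℝ) ^ (-E.δ / 2) := by
        rw [← Real.rpow_neg_one, ← Real.rpow_add ht0]
        congr 1; ring
      rw [e3]; ring
    rw [e2, e1, E3, ← cm_mul_fun]
  rw [Finset.sum_congr rfl hterm]
  have hmin1 : min 1 η ≤ 1 := min_le_left _ _
  have hmin2 : min 1 η ≤ η := min_le_right _ _
  have hs0 : 0 ≤ ∑ p ∈ P, a p := Finset.sum_nonneg fun p _ => ha0 p
  have hone : ∀ p ∈ P, a p ≤ 1 / 2 := by
    intro p hp
    have h1 := Finset.single_le_sum (f := a) (fun q _ => ha0 q) hp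
    have : 2 * ε ≤ 1 / 2 := by rw [hε]; linarith
    linarith
  have hEP := sum_cm_le' a P ((Icc 2 M).filter (fun t => Rough R t))
    (fun p hp => by
      rw [hP, mem_filter] at hp
      exact hp.2) (fun p _ => ha0 p) hone
    (fun t ht => by
      rw [mem_filter, mem_Icc] at ht
      obtain ⟨⟨ht2, htM⟩, hro⟩ := ht
      refine ⟨by omega, fun p hp => ?_⟩
      have hpp := Nat.prime_of_mem_primeFactors hp
      have hpd := Nat.dvd_of_mem_primeFactors hp
      rw [hP, mem_filter, mem_Icc]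
      refine ⟨⟨?_, ?_⟩, hpp⟩
      · have := hro p hpp hpd
        exact_mod_cast this
      · exact (Nat.le_of_dvd (by omega) hpd).trans htM)
    (by rw [mem_filter, mem_Icc]; omega)
  refine hEP.trans ?_
  set S := ∑ p ∈ P, a p with hS
  have hs1 : 2 * S ≤ 1 := by
    have : 2 * (2 * ε) ≤ 1 := by rw [hε]; linarith
    linarith
  have h5 := Real.abs_exp_sub_one_le (x := 2 * S) (by rw [abs_of_nonneg (by linarith)]; exact hs1)
  rw [abs_of_nonneg (by linarith : (0:ℝ) ≤ 2 * S)] at h5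
  have h6 := (le_abs_self _).trans h5
  have h7 : 2 * (2 * (2 * ε)) ≤ η := by rw [hε]; linarith
  linarith

end Pool.Agent.R888.CM
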