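import Pool.Agent.R888.CM.Key
import Pool.Agent.W76.MO.Asm4

/-!
# The system of equations (completely multiplicative version)
-/

set_option autoImplicit false

namespace Pool.Agent.R888.CM

open Finset Filter Topology
open scoped Classical
open Pool.Agent.W76.MO

lemma prod_scaleC (n : ℕ) (hn : n ≠ 0) (g : ℕ → ℝ) :
    cm (fun p => 1 / (p : ℝ) + g p) n = (1 / (n : ℝ)) * cm (fun p => 1 + p * g p) n := by
  have h : cm (fun p => 1 / (p : ℝ) + g p) n =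
      cm (fun p : ℕ => (1 / (p : ℝ)) * (1 + p * g p)) n := by
    apply cm_congr
    intro p hp
    have hp0 : (p : ℝ) ≠ 0 := by exact_mod_cast (Nat.prime_of_mem_primeFactors hp).ne_zero
    field_simp
  rw [h, cm_mul_fun, cm_inv hn]

lemma sum_scaleC (n : ℕ) (hn : n ≠ 0) (g : ℕ → ℝ) :
    ∑ x ∈ I n, g x.1 * ∏ y ∈ (I n).erase x, (1 / (y.1 : ℝ) + g y.1) =
      (1 / (n : ℝ)) * TT (I n) (fun x => x.1 * g x.1) := by
  unfold TT
  rw [mul_sum]
  refine sum_congr rfl fun x hx => ?_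
  have h0 : ∀ y ∈ I n, ((y.1 : ℕ) : ℝ) ≠ 0 := fun y hy => by
    exact_mod_cast (Nat.prime_of_mem_primeFactors (mem_I hy)).ne_zero
  have hx0 := h0 x hx
  have h1 : ∏ y ∈ (I n).erase x, (1 / (y.1 : ℝ) + g y.1) =
      (∏ y ∈ (I n).erase x, (1 / (y.1 : ℝ))) * ∏ y ∈ (I n).erase x, (1 + (y.1 : ℝ) * g y.1) := by
    rw [← prod_mul_distrib]
    refine prod_congr rfl fun y hy => ?_
    have := h0 y (mem_of_mem_erase hy)
    field_simp
  have h2 : (1 / (x.1 : ℝ)) * ∏ y ∈ (I n).erase x, (1 / (y.1 : ℝ)) = 1 / (n : ℝ) := by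
    rw [mul_prod_erase (I n) (fun y => 1 / (y.1 : ℝ)) hx, prod_I (fun p => 1 / (p : ℝ)), cm_inv hn]
  rw [h1, ← h2]
  field_simp

variable (E : Env)

/-- the function -/
noncomputable def fzC (j : ℕ) (z : ℕ × ℕ → ℝ) (n : ℕ) : ℝ := cm (fun p => E.gz j z p - 1 / (p : ℝ)) n

lemma fzC_bound (j n : ℕ) (z z' : ℕ × ℕ → ℝ) (ε : ℝ) (hu : ∀ p, 0 ≤ E.gu j p)
    (hz : ∀ i, |z i| ≤ 1) (hz' : ∀ i, |z' i| ≤ 1)
    (hzz : ∀ i, |z i - z' i| ≤ ε) (hn : n ≠ 0) :
    |fzC E j z n| ≤ massC E j n ∧ |fzC E j z n - fzC E j z' n| ≤ ε * tauC E j n := by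
  have hε : 0 ≤ ε := (abs_nonneg _).trans (hzz (0, 0))
  have h := perturb (I n) (fun x => 1 / ((x.1 : ℕ) : ℝ)) (fun x => E.gz j z x.1)
    (fun x => E.gz j z' x.1) (fun x => E.g j x.1) ε
    (fun x => by positivity) hε
    (fun x => (E.gz_le j z 1 hz hu x.1).trans (le_of_eq (one_mul _)))
    (fun x => (E.gz_le j z' 1 hz' hu x.1).trans (le_of_eq (one_mul _)))
    (fun x => by rw [Env.gz_sub]; exact E.gz_le j _ ε hzz hu x.1)
  have e : ∀ w : ℕ × ℕ → ℝ, ∏ x ∈ I n, (E.gz j w x.1 - 1 / ((x.1 : ℕ) : ℝ)) = fzC E j w n :=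
    fun w => prod_I (fun p => E.gz j w p - 1 / (p : ℝ)) n
  simp only [e] at h
  refine ⟨?_, ?_⟩
  · refine h.1.trans (le_of_eq ?_)
    rw [prod_I (fun p => 1 / (p : ℝ) + E.g j p), prod_scaleC n hn]
    rfl
  · refine h.2.trans (le_of_eq ?_)
    rw [sum_scaleC n hn]
    rfl

lemma fzC_zero (j n : ℕ) (hu : ∀ p, 0 ≤ E.gu j p) (hn : n ≠ 0) :
    |fzC E j 0 n| = 1 / (n : ℝ) := by
  have h0 : ∀ p, E.gz j 0 p = 0 := fun p => by
    have := E.gz_le j 0 0 (fun i => by simp) hu p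
    rw [zero_mul] at this
    exact abs_eq_zero.1 (le_antisymm this (abs_nonneg _))
  unfold fzC
  rw [cm_abs, ← cm_inv hn]
  apply cm_congr
  intro p _
  rw [h0, zero_sub, abs_neg, abs_of_nonneg (by positivity)]

lemma fzC_sqf (j n : ℕ) (z : ℕ × ℕ → ℝ) (hn : Squarefree n) : fzC E j z n = E.fz j z n := by
  unfold fzC Env.fz
  rw [cm_sqf _ hn]

lemma fact_sqf {n p : ℕ} (hn : Squarefree n) (hp : p ∈ n.primeFactors) : n.factorization p = 1 := by
  have h2 := (Nat.squarefree_iff_factorization_le_one hn.ne_zero).1 hn p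
  have h3 : 0 < n.factorization p :=
    (Nat.prime_of_mem_primeFactors hp).factorization_pos_of_dvd hn.ne_zero
      (Nat.dvd_of_mem_primeFactors hp)
  omega

lemma tauC_eq (j n : ℕ) (hg : ∀ p, 0 ≤ E.g j p) : tauC E j n =
    (1 / (n : ℝ)) * ∑ p ∈ n.primeFactors, (n.factorization p : ℝ) * ((p * E.g j p) *
      cm (fun p => 1 + p * E.g j p) (n / p)) := by
  unfold tauC TT
  congr 1
  exact sum_I (fun p => p * E.g j p) (fun p => 1 + p * E.g j p) n (fun p _ => by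
    have := mul_nonneg (Nat.cast_nonneg (α := ℝ) p) (hg p)
    linarith)

lemma tauC_sqf (j n : ℕ) (hg : ∀ p, 0 ≤ E.g j p) (hn : Squarefree n) :
    tauC E j n = E.tau j n := by
  rw [tauC_eq E j n hg]
  unfold Env.tau Pool.Agent.W76.MO.TT
  congr 1
  refine sum_congr rfl fun p hp => ?_
  have hpn := Nat.dvd_of_mem_primeFactors hp
  have hsq : Squarefree (n / p) := hn.squarefree_of_dvd (Nat.div_dvd_of_dvd hpn)
  rw [fact_sqf hn hp, cm_sqf _ hsq, primeFactors_div n p hn hp]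
  push_cast
  ring

end Pool.Agent.R888.CM
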