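import Pool.Agent.R888.CM.Defs
import Pool.Agent.W356.MO.HX

/-!
# Expansion of the host sum
-/

set_option autoImplicit false

namespace Pool.Agent.R888.CM

open Finset Filter Topology
open scoped Classical
open Pool.Agent.W76.MO
open Pool.Agent
open Pool.Agent.W356.MO (lp_mem_of_pos cell_le lt_cell host_lp)

/-- the host sum with multiplicities -/
noncomputable def HTm (E : Env) (j R i k i' k' : ℕ) : ℝ :=
  ∑ u ∈ ((E.Host j i' k') ×ˢ (cs E R i k)).filter (fun u : ℕ × ℕ =>
      lp u.1 ∣ u.2 ∧ (2 : ℝ) ^ (1 / 20 * (i : ℝ)) < lp u.1 ∧ True),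
    (if u.1 = u.2 then (1 : ℝ) else 20) *
      (E.w i' / ((E.Host j i' k').card : ℝ) * ((u.1 : ℝ) / u.2) * E3 E j (u.2 / lp u.1))

theorem HTm_eq (E : Env) (j R i k i' k' : ℕ) :
    HTm E j R i k i' k' = HT E j R i k i' k' (fun a b => a = b) +
      20 * HT E j R i k i' k' (fun a b => a ≠ b) := by
  unfold HTm HT
  rw [← Finset.sum_filter_add_sum_filter_not _ (fun u : ℕ × ℕ => u.1 = u.2),
    Finset.filter_filter, Finset.filter_filter]
  simp only [and_true, and_assoc]
  congr 1
  · apply Finset.sum_congr rfl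
    intro u hu
    rw [Finset.mem_filter] at hu
    rw [if_pos hu.2.2.2, one_mul]
  · rw [Finset.mul_sum]
    apply Finset.sum_congr rfl
    intro u hu
    rw [Finset.mem_filter] at hu
    rw [if_neg hu.2.2.2]

theorem HTm_le (E : Env) (j R i k i' k' : ℕ) (hgu : ∀ p, 0 ≤ E.gu j p) (hgh : ∀ p, 0 ≤ E.gh j p) :
    HTm E j R i k i' k' ≤ 20 * HT E j R i k i' k' (fun _ _ => True) := by
  unfold HTm HT
  rw [Finset.mul_sum]
  refine le_trans (Finset.sum_le_sum (g := fun u : ℕ × ℕ => 20 *
    (E.w i' / ((E.Host j i' k').card : ℝ) * ((u.1 : ℝ) / u.2) * E3 E j (u.2 / lp u.1))) ?_)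
    (le_of_eq (Finset.sum_congr (by ext u; simp only [Finset.mem_filter]) (fun _ _ => rfl)))
  intro u _
  have h1 := w_nonneg E i'
  have h2 := E3_nonneg hgu hgh (u.2 / lp u.1)
  have h3 : 0 ≤ E.w i' / ((E.Host j i' k').card : ℝ) * ((u.1 : ℝ) / u.2) *
      E3 E j (u.2 / lp u.1) := by positivity
  split_ifs
  · linarith
  · exact le_rfl

/-- large prime factors have small multiplicity -/
theorem mult_le {i n q : ℕ} (hi : 20 ≤ i) (hn : n ≤ 2 ^ (i + 1)) (hn0 : n ≠ 0)
    (hq : (2 : ℝ) ^ (1 / 20 * (i : ℝ)) < q) : (n.factorization q : ℝ) ≤ 20 := by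
  have h1 : q ^ n.factorization q ∣ n := Nat.ordProj_dvd n q
  have h2 := (Nat.le_of_dvd (Nat.pos_of_ne_zero hn0) h1).trans hn
  by_contra hcon
  push Not at hcon
  have h3 : 21 ≤ n.factorization q := by
    have : 20 < n.factorization q := by exact_mod_cast hcon
    omega
  have hq1 : 1 ≤ q := by
    have : (0 : ℝ) < q := lt_trans (by positivity) hq
    exact_mod_cast this
  have h4 : q ^ 21 ≤ 2 ^ (i + 1) := (Nat.pow_le_pow_right hq1 h3).trans h2
  have h5 : (q : ℝ) ^ 21 ≤ (2 : ℝ) ^ ((i : ℝ) + 1) := by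
    have : ((q ^ 21 : ℕ) : ℝ) ≤ ((2 ^ (i + 1) : ℕ) : ℝ) := by exact_mod_cast h4
    push_cast at this
    rw [show ((i : ℝ) + 1) = ((i + 1 : ℕ) : ℝ) by push_cast; ring, Real.rpow_natCast]
    exact this
  have h6 : ((2 : ℝ) ^ (1 / 20 * (i : ℝ))) ^ 21 < (q : ℝ) ^ 21 :=
    pow_lt_pow_left₀ hq (by positivity) (by norm_num)
  have h7 : ((2 : ℝ) ^ (1 / 20 * (i : ℝ))) ^ 21 = (2 : ℝ) ^ (21 / 20 * (i : ℝ)) := by
    rw [← Real.rpow_natCast, ← Real.rpow_mul (by norm_num)]
    congr 1
    push_cast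
    ring
  rw [h7] at h6
  have h8 := (Real.rpow_lt_rpow_left_iff (by norm_num)).1 (h6.trans_le h5)
  have h9 : (20 : ℝ) ≤ i := by exact_mod_cast hi
  linarith

theorem fact_host {E : Env} {j i k n : ℕ} (hn : n ∈ E.Host j i k) {q : ℕ} :
    (n.factorization q : ℝ) ≤ 1 := by
  unfold Env.Host at hn
  rw [Finset.mem_filter] at hn
  have hsq : Squarefree n := hn.2.2.2.1
  exact_mod_cast (Nat.squarefree_iff_factorization_le_one hsq.ne_zero).1 hsq q

theorem hpart (E : Env) (hG : E.GBounds) (h1 : HP1 E) (hA : HPA E) (hB : HPB E) : HPart E := by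
  obtain ⟨JG, _, hG⟩ := hG
  obtain ⟨J1, h1⟩ := h1
  obtain ⟨R₀, hA⟩ := hA
  obtain ⟨JB, hB⟩ := hB
  refine ⟨R₀, fun R hR => ?_⟩
  obtain ⟨JA, hA⟩ := hA R hR
  refine ⟨max (max JG J1) (max JA JB) + 20, fun j hj' i hij k hk => ?_⟩
  have hj : max (max JG J1) (max JA JB) ≤ j := by omega
  have hi20 : 20 ≤ i := by omega
  have hjG : JG ≤ j := le_trans (le_trans (le_max_left _ _) (le_max_left _ _)) hj
  have hj1 : J1 ≤ j := le_trans (le_trans (le_max_right _ _) (le_max_left _ _)) hj
  have hjA : JA ≤ j := le_trans (le_trans (le_max_left _ _) (le_max_right _ _)) hj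
  have hjB : JB ≤ j := le_trans (le_trans (le_max_right _ _) (le_max_right _ _)) hj
  obtain ⟨_, hgu, hgh, _⟩ := hG j hjG
  have h1' := h1 j hj1 R i k hij hk
  have hA' := hA j hjA i k hij hk
  have hB' := hB j hjB R i k hij hk
  have hτ := E.hτ
  have hw := w_nonneg E i
  -- the main bound
  have key : ∑ n ∈ cs E R i k, ∑ q ∈ n.primeFactors.filter
      (fun q : ℕ => (2 : ℝ) ^ (1 / 20 * (i : ℝ)) < q),
      (n.factorization q : ℝ) * (E.gh j q * (E3 E j (n / q) / ((n / q : ℕ) : ℝ))) ≤
      ∑ i' ∈ (range (2 * i + 3)).filter (fun i' : ℕ => j ≤ i'),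
        ∑ k' ∈ E.Bad i', HTm E j R i k i' k' := by
    have step : ∀ n ∈ cs E R i k, ∑ q ∈ n.primeFactors.filter
      (fun q : ℕ => (2 : ℝ) ^ (1 / 20 * (i : ℝ)) < q),
      (n.factorization q : ℝ) * (E.gh j q * (E3 E j (n / q) / ((n / q : ℕ) : ℝ))) ≤
      ∑ i' ∈ (range (2 * i + 3)).filter (fun i' : ℕ => j ≤ i'),
        ∑ k' ∈ E.Bad i', ∑ n₁ ∈ (E.Host j i' k').filter (fun n₁ => W76.MO.lp n₁ ∣ n ∧
          (2 : ℝ) ^ (1 / 20 * (i : ℝ)) < W76.MO.lp n₁ ∧ True),
          (if n₁ = n then (1 : ℝ) else 20) * (E.w i' / ((E.Host j i' k').card : ℝ) * ((n₁ : ℝ) / n) * E3 E j (n / W76.MO.lp n₁)) := by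
      intro n hn
      have hncell : n ∈ cell E.δ i k := by
        unfold cs at hn
        exact (Finset.mem_filter.mp hn).1
      have hnle : n ≤ 2 ^ (i + 1) := cell_le hk hncell
      have hnpos : 0 < n := lt_of_le_of_lt (Nat.zero_le _) (lt_cell hncell)
      -- first, bound each q term
      have stepq : ∀ q ∈ n.primeFactors.filter
          (fun q : ℕ => (2 : ℝ) ^ (1 / 20 * (i : ℝ)) < q),
          (n.factorization q : ℝ) * (E.gh j q * (E3 E j (n / q) / ((n / q : ℕ) : ℝ))) ≤
          ∑ i' ∈ (range (2 * i + 3)).filter (fun i' : ℕ => j ≤ i'),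
            ∑ k' ∈ E.Bad i', ∑ n₁ ∈ (E.Host j i' k').filter (fun n₁ => W76.MO.lp n₁ = q),
              (if n₁ = n then (1 : ℝ) else 20) * (E.w i' / ((E.Host j i' k').card : ℝ) * ((n₁ : ℝ) / n) * E3 E j (n / W76.MO.lp n₁)) := by
        intro q hq
        rw [Finset.mem_filter] at hq
        have hqp : q.Prime := Nat.prime_of_mem_primeFactors hq.1
        have hqd : q ∣ n := Nat.dvd_of_mem_primeFactors hq.1
        have hqn : q ≤ n := Nat.le_of_dvd hnpos hqd
        have hq0 : (0 : ℝ) < q := by exact_mod_cast hqp.pos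
        have hn0 : (0 : ℝ) < n := by exact_mod_cast hnpos
        have hdiv : ((n / q : ℕ) : ℝ) = (n : ℝ) / q := by
          rw [Nat.cast_div hqd (ne_of_gt hq0)]
        have hmult : (n.factorization q : ℝ) ≤ 20 := mult_le hi20 hnle (by omega) hq.2
        have hmult0 : (0 : ℝ) ≤ (n.factorization q : ℝ) := Nat.cast_nonneg _
        unfold Env.gh
        rw [Finset.sum_mul, Finset.mul_sum]
        -- pointwise bound
        have hid : ∀ i' : ℕ, (n.factorization q : ℝ) * ((∑ k' ∈ E.Bad i', ∑ n₁ ∈ (E.Host j i' k').filter (fun n₁ => W76.MO.lp n₁ = q),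
            E.w i' / ((E.Host j i' k').card : ℝ) * ((n₁ : ℝ) / q)) *
              (E3 E j (n / q) / ((n / q : ℕ) : ℝ))) ≤
            ∑ k' ∈ E.Bad i', ∑ n₁ ∈ (E.Host j i' k').filter (fun n₁ => W76.MO.lp n₁ = q),
              (if n₁ = n then (1 : ℝ) else 20) * (E.w i' / ((E.Host j i' k').card : ℝ) * ((n₁ : ℝ) / n) * E3 E j (n / W76.MO.lp n₁)) := by
          intro i'
          rw [Finset.sum_mul, Finset.mul_sum]
          apply Finset.sum_le_sum
          intro k' _
          rw [Finset.sum_mul, Finset.mul_sum]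
          apply Finset.sum_le_sum
          intro n₁ hn₁
          rw [Finset.mem_filter] at hn₁
          have hX : E.w i' / ((E.Host j i' k').card : ℝ) * ((n₁ : ℝ) / q) *
              (E3 E j (n / q) / ((n / q : ℕ) : ℝ)) =
              E.w i' / ((E.Host j i' k').card : ℝ) * ((n₁ : ℝ) / n) * E3 E j (n / W76.MO.lp n₁) := by
            rw [hn₁.2, hdiv]
            field_simp
          rw [hX]
          have h1' := w_nonneg E i'
          have h2' := E3_nonneg hgu hgh (n / W76.MO.lp n₁)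
          have h3' : 0 ≤ E.w i' / ((E.Host j i' k').card : ℝ) * ((n₁ : ℝ) / n) *
            E3 E j (n / W76.MO.lp n₁) := by positivity
          apply mul_le_mul_of_nonneg_right _ h3'
          split_ifs with he
          · rw [← he]
            exact fact_host hn₁.1
          · exact hmult
        refine le_trans (Finset.sum_le_sum (fun i' _ => hid i')) ?_
        -- compare index sets
        have hnonneg : ∀ i' : ℕ, 0 ≤ ∑ k' ∈ E.Bad i',
            ∑ n₁ ∈ (E.Host j i' k').filter (fun n₁ => W76.MO.lp n₁ = q),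
              (if n₁ = n then (1 : ℝ) else 20) * (E.w i' / ((E.Host j i' k').card : ℝ) * ((n₁ : ℝ) / n) * E3 E j (n / W76.MO.lp n₁)) := by
          intro i'
          apply Finset.sum_nonneg
          intro k' _
          apply Finset.sum_nonneg
          intro n₁ _
          have := w_nonneg E i'
          have := E3_nonneg hgu hgh (n / W76.MO.lp n₁)
          positivity
        have hzero : ∀ i' : ℕ, 2 * i + 3 ≤ i' → ∑ k' ∈ E.Bad i',
            ∑ n₁ ∈ (E.Host j i' k').filter (fun n₁ => W76.MO.lp n₁ = q),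
              (if n₁ = n then (1 : ℝ) else 20) * (E.w i' / ((E.Host j i' k').card : ℝ) * ((n₁ : ℝ) / n) * E3 E j (n / W76.MO.lp n₁)) = 0 := by
          intro i' hi'
          apply Finset.sum_eq_zero
          intro k' _
          apply Finset.sum_eq_zero
          intro n₁ hn₁
          exfalso
          rw [Finset.mem_filter] at hn₁
          have h3 := host_lp hn₁.1
          rw [hn₁.2] at h3
          have h4 : (q : ℝ) ≤ (2 : ℝ) ^ ((i : ℝ) + 1) := by
            have : (q : ℝ) ≤ ((2 ^ (i + 1) : ℕ) : ℝ) := by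
              exact_mod_cast le_trans hqn hnle
            rw [show ((i : ℝ) + 1) = ((i + 1 : ℕ) : ℝ) by push_cast; ring, Real.rpow_natCast]
            push_cast at this
            exact this
          have h5 : (2 : ℝ) ^ ((i : ℝ) + 1) < (2 : ℝ) ^ ((1 / 2 + E.τ) * i') := by
            apply Real.rpow_lt_rpow_of_exponent_lt (by norm_num)
            have : (2 * (i : ℝ) + 3) ≤ i' := by exact_mod_cast hi'
            nlinarith
          linarith
        rw [← Finset.sum_filter_ne_zero]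
        apply Finset.sum_le_sum_of_subset_of_nonneg
        · intro i' hi'
          rw [Finset.mem_filter, Finset.mem_filter] at hi'
          rw [Finset.mem_filter]
          refine ⟨?_, hi'.1.2⟩
          rw [Finset.mem_range]
          by_contra hcon
          exact hi'.2 (hzero i' (by omega))
        · intro i' _ _
          exact hnonneg i'
      refine le_trans (Finset.sum_le_sum stepq) ?_
      rw [Finset.sum_comm]
      apply Finset.sum_le_sum
      intro i' _
      rw [Finset.sum_comm]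
      apply Finset.sum_le_sum
      intro k' _
      -- fiberwise
      have hfib : ∑ q ∈ n.primeFactors.filter
          (fun q : ℕ => (2 : ℝ) ^ (1 / 20 * (i : ℝ)) < q),
          ∑ n₁ ∈ (E.Host j i' k').filter (fun n₁ => W76.MO.lp n₁ = q),
            (if n₁ = n then (1 : ℝ) else 20) * (E.w i' / ((E.Host j i' k').card : ℝ) * ((n₁ : ℝ) / n) * E3 E j (n / W76.MO.lp n₁)) =
          ∑ n₁ ∈ (E.Host j i' k').filter (fun n₁ => W76.MO.lp n₁ ∈ n.primeFactors.filter
          (fun q : ℕ => (2 : ℝ) ^ (1 / 20 * (i : ℝ)) < q)),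
            (if n₁ = n then (1 : ℝ) else 20) * (E.w i' / ((E.Host j i' k').card : ℝ) * ((n₁ : ℝ) / n) * E3 E j (n / W76.MO.lp n₁)) := by
        rw [← Finset.sum_fiberwise_of_maps_to (s := (E.Host j i' k').filter
          (fun n₁ => W76.MO.lp n₁ ∈ n.primeFactors.filter
            (fun q : ℕ => (2 : ℝ) ^ (1 / 20 * (i : ℝ)) < q)))
          (t := n.primeFactors.filter (fun q : ℕ => (2 : ℝ) ^ (1 / 20 * (i : ℝ)) < q)) (g := W76.MO.lp)]
        · apply Finset.sum_congr rfl
          intro q hq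
          apply Finset.sum_congr
          · ext n₁
            simp only [Finset.mem_filter] at hq ⊢
            constructor
            · rintro ⟨ha, hb⟩
              refine ⟨⟨ha, ?_⟩, hb⟩
              rw [hb]
              exact hq
            · rintro ⟨⟨ha, _⟩, hb⟩
              exact ⟨ha, hb⟩
          · intro _ _
            rfl
        · intro n₁ hn₁
          exact (Finset.mem_filter.mp hn₁).2
      rw [hfib]
      apply Finset.sum_le_sum_of_subset_of_nonneg
      · intro n₁ hn₁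
        simp only [Finset.mem_filter] at hn₁ ⊢
        exact ⟨hn₁.1, Nat.dvd_of_mem_primeFactors hn₁.2.1, hn₁.2.2, trivial⟩
      · intro n₁ _ _
        have := w_nonneg E i'
        have := E3_nonneg hgu hgh (n / W76.MO.lp n₁)
        positivity
    refine le_trans (Finset.sum_le_sum step) ?_
    rw [Finset.sum_comm]
    apply le_of_eq
    apply Finset.sum_congr rfl
    intro i' _
    rw [Finset.sum_comm]
    apply Finset.sum_congr rfl
    intro k' _
    unfold HTm
    rw [Finset.sum_filter, Finset.sum_product_right]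
    apply Finset.sum_congr rfl
    intro n _
    rw [Finset.sum_filter]
  refine le_trans key ?_
  rw [← Finset.sum_filter_add_sum_filter_not _ (fun i' : ℕ => (i' : ℝ) < (1 - E.τ) * i),
    Finset.filter_filter, Finset.filter_filter]
  simp only [not_lt]
  have hA1 := hA'.1
  have hA2 := hA'.2
  have hp1 : ∑ i' ∈ (range (2 * i + 3)).filter (fun i' : ℕ => j ≤ i' ∧ (i' : ℝ) < (1 - E.τ) * i),
      ∑ k' ∈ E.Bad i', HTm E j R i k i' k' ≤ 20 * (E.w i / 1280) := by
    refine le_trans ?_ (mul_le_mul_of_nonneg_left h1' (by norm_num))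
    rw [Finset.mul_sum]
    apply Finset.sum_le_sum
    intro i' _
    rw [Finset.mul_sum]
    apply Finset.sum_le_sum
    intro k' _
    exact HTm_le E j R i k i' k' hgu hgh
  have hp2 : ∑ i' ∈ (range (2 * i + 3)).filter
      (fun i' : ℕ => j ≤ i' ∧ (1 - E.τ) * i ≤ (i' : ℝ)),
      ∑ k' ∈ E.Bad i', HTm E j R i k i' k' =
      ∑ i' ∈ (range (2 * i + 3)).filter
      (fun i' : ℕ => j ≤ i' ∧ (1 - E.τ) * i ≤ (i' : ℝ)),
      ∑ k' ∈ E.Bad i', HT E j R i k i' k' (fun a b => a = b) +
      20 * (∑ i' ∈ (range (2 * i + 3)).filter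
      (fun i' : ℕ => j ≤ i' ∧ (1 - E.τ) * i ≤ (i' : ℝ)),
      ∑ k' ∈ E.Bad i', HT E j R i k i' k' (fun a b => a ∣ b ∧ a ≠ b) +
      ∑ i' ∈ (range (2 * i + 3)).filter
      (fun i' : ℕ => j ≤ i' ∧ (1 - E.τ) * i ≤ (i' : ℝ)),
      ∑ k' ∈ E.Bad i', HT E j R i k i' k' (fun a b => ¬ a ∣ b)) := by
    rw [← Finset.sum_add_distrib, Finset.mul_sum, ← Finset.sum_add_distrib]
    apply Finset.sum_congr rfl
    intro i' _
    rw [← Finset.sum_add_distrib, Finset.mul_sum, ← Finset.sum_add_distrib]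
    apply Finset.sum_congr rfl
    intro k' _
    rw [HTm_eq]
    congr 2
    unfold HT
    rw [← Finset.sum_filter_add_sum_filter_not _ (fun u : ℕ × ℕ => u.1 ∣ u.2),
      Finset.filter_filter, Finset.filter_filter]
    congr 1
    · apply Finset.sum_congr _ (fun _ _ => rfl)
      ext u
      simp only [Finset.mem_filter]
      tauto
    · apply Finset.sum_congr _ (fun _ _ => rfl)
      ext u
      simp only [Finset.mem_filter]
      constructor
      · rintro ⟨a1, ⟨a2, a3, a4⟩, a5⟩
        exact ⟨a1, a2, a3, a5⟩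
      · rintro ⟨a1, a2, a3, a5⟩
        refine ⟨a1, ⟨a2, a3, ?_⟩, a5⟩
        intro he
        exact a5 (he ▸ dvd_rfl)
  rw [hp2]
  linarith

end Pool.Agent.R888.CM
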