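import Pool.Agent.R888.CM.SPA

/-!
# Small control primes, part 2 (host primes, assembly), with multiplicities
-/

set_option autoImplicit false

namespace Pool.Agent.R888.CM

open Finset Filter Topology
open scoped Classical
open Pool.Agent.W76.MO
open Pool.Agent.W683.MO (large card_mult gu_nonneg gh_nonneg hh_posR cell_sub lt_hh hh_le exp_id1 δ_half)

/-- the `Q`-part of `n` -/
lemma exists_part (Q : Finset ℕ) (f : ℕ → ℝ) (n : ℕ) (hn : n ≠ 0) :
    ∃ D : ℕ, D ∣ n ∧ D ≠ 0 ∧ D.primeFactors ⊆ Q ∧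
      cm (fun p => if p ∈ Q then f p else 1) n = cm f D := by
  induction n using induction_on_primes with
  | zero => exact absurd rfl hn
  | one => exact ⟨1, by simp, by simp, by simp, by simp⟩
  | prime_mul p a hp ih =>
    have ha : a ≠ 0 := by
      rintro rfl
      simp at hn
    obtain ⟨D, h1, h2, h3, h4⟩ := ih ha
    rw [cm_mul _ hp.ne_zero ha, cm_prime _ hp, h4]
    by_cases hq : p ∈ Q
    · refine ⟨p * D, Nat.mul_dvd_mul_left p h1, Nat.mul_ne_zero hp.ne_zero h2, ?_, ?_⟩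
      · rw [Nat.primeFactors_mul hp.ne_zero h2, hp.primeFactors]
        exact union_subset (singleton_subset_iff.2 hq) h3
      · rw [if_pos hq, cm_mul _ hp.ne_zero h2, cm_prime _ hp]
    · refine ⟨D, h1.trans (Nat.dvd_mul_left a p), h2, h3, ?_⟩
      rw [if_neg hq, one_mul]

/-- (B), pointwise -/
theorem B_point (b : ℕ → ℝ) (hb : ∀ q, 0 ≤ b q) (Q : Finset ℕ)
    (θ Z1 Z2 K y : ℝ) (hθ : 0 ≤ θ) (hbθ : ∀ q ∈ Q, 1 + b q ≤ (q : ℝ) ^ θ)
    (hy : ∀ q ∈ Q, (q : ℝ) ≤ y) (hZ1 : 1 ≤ Z1) (hZ2 : Z1 * y ≤ Z2) (n M : ℕ) (hn : 1 ≤ n)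
    (hM : n ≤ M) (hK : (n : ℝ) ^ θ ≤ K) :
    cm (fun p => if p ∈ Q then 1 + b p else 1) n ≤
      ∑ d ∈ (Icc 1 M).filter (fun d : ℕ => d.primeFactors ⊆ Q ∧ (d : ℝ) ≤ Z1),
        cm (fun p => 1 + b p) d * (if d ∣ n then 1 else 0) +
      K * ∑ d ∈ (Icc 1 M).filter (fun d : ℕ => d.primeFactors ⊆ Q ∧ Z1 < (d : ℝ) ∧ (d : ℝ) ≤ Z2),
        (if d ∣ n then (1 : ℝ) else 0) := by
  have hK0 : 0 ≤ K := le_trans (by positivity) hK
  have hc0 : ∀ d : ℕ, 0 ≤ cm (fun p => 1 + b p) d := fun d => cm_nonneg fun p _ => by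
    have := hb p
    linarith
  have hn1 : 0 ≤ ∑ d ∈ (Icc 1 M).filter (fun d : ℕ => d.primeFactors ⊆ Q ∧ (d : ℝ) ≤ Z1),
        cm (fun p => 1 + b p) d * (if d ∣ n then 1 else 0) := by
    apply sum_nonneg
    intro s _
    have := hc0 s
    split_ifs <;> simp [this]
  have hn2 : 0 ≤ ∑ d ∈ (Icc 1 M).filter
      (fun d : ℕ => d.primeFactors ⊆ Q ∧ Z1 < (d : ℝ) ∧ (d : ℝ) ≤ Z2),
        (if d ∣ n then (1 : ℝ) else 0) := by
    apply sum_nonneg
    intro s _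
    split_ifs <;> simp
  obtain ⟨D, hDn, hD0, hDQ, hD⟩ := exists_part Q (fun p => 1 + b p) n (by omega)
  rw [hD]
  have hDle : D ≤ n := Nat.le_of_dvd (by omega) hDn
  by_cases hc : (D : ℝ) ≤ Z1
  · have h9 := single_le_sum (f := fun d : ℕ =>
        cm (fun p => 1 + b p) d * (if d ∣ n then (1 : ℝ) else 0))
        (s := (Icc 1 M).filter (fun d : ℕ => d.primeFactors ⊆ Q ∧ (d : ℝ) ≤ Z1))
        (fun s _ => by
          have := hc0 s
          split_ifs <;> simp [this])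
        (a := D) (by
          rw [mem_filter, mem_Icc]
          exact ⟨⟨by omega, by omega⟩, hDQ, hc⟩)
    simp only [if_pos hDn, mul_one] at h9
    have e3 := mul_nonneg hK0 hn2
    linarith
  · push Not at hc
    -- upper bound K
    have e1 : cm (fun p => 1 + b p) D ≤ K := by
      have h1 : cm (fun p => 1 + b p) D ≤ cm (fun p => (p : ℝ) ^ θ) D := by
        apply cm_mono
        · intro p _
          have := hb p
          linarith
        · intro p hp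
          exact hbθ p (hDQ hp)
      rw [cm_rpow _ hD0] at h1
      refine h1.trans (le_trans ?_ hK)
      apply Real.rpow_le_rpow (Nat.cast_nonneg _) _ hθ
      exact_mod_cast hDle
    -- a divisor of the right size
    have hex : ∃ d : ℕ, d ∣ D ∧ Z1 < (d : ℝ) := ⟨D, dvd_rfl, hc⟩
    obtain ⟨hd1, hd2⟩ := Nat.find_spec hex
    have hmin : ∀ m : ℕ, m < Nat.find hex → ¬ (m ∣ D ∧ Z1 < (m : ℝ)) :=
      fun m hm => Nat.find_min hex hm
    set d := Nat.find hex with hd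
    have hd0 : d ≠ 0 := by
      intro h0
      rw [h0] at hd1
      exact hD0 (Nat.eq_zero_of_zero_dvd hd1)
    have hdne : d ≠ 1 := by
      intro h1
      rw [h1, Nat.cast_one] at hd2
      linarith
    obtain ⟨q, hq, hqd⟩ := Nat.exists_prime_and_dvd hdne
    have hqQ : q ∈ Q := hDQ (Nat.mem_primeFactors.2 ⟨hq, hqd.trans hd1, hD0⟩)
    obtain ⟨m, hm⟩ := hqd
    have hm0 : m ≠ 0 := by
      rintro rfl
      exact hd0 (by rw [hm, mul_zero])
    have hmd : m < d := by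
      have := hq.two_le
      have h1 : 0 < m := Nat.pos_of_ne_zero hm0
      nlinarith
    have h2 : (m : ℝ) ≤ Z1 := by
      by_contra h3
      push Not at h3
      exact hmin m hmd ⟨(Dvd.intro_left q hm.symm).trans hd1, h3⟩
    have h5 : (d : ℝ) ≤ Z2 := by
      rw [hm]
      push_cast
      have h6 := hy q hqQ
      have h7 : (0 : ℝ) ≤ q := Nat.cast_nonneg q
      have h8 : (0 : ℝ) ≤ m := Nat.cast_nonneg m
      nlinarith
    have hdn : d ∣ n := hd1.trans hDn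
    have hdM : d ≤ M := (Nat.le_of_dvd (by omega) hdn).trans hM
    have e4 : (1 : ℝ) ≤ ∑ d ∈ (Icc 1 M).filter
        (fun d : ℕ => d.primeFactors ⊆ Q ∧ Z1 < (d : ℝ) ∧ (d : ℝ) ≤ Z2),
          (if d ∣ n then (1 : ℝ) else 0) := by
      have h9 := single_le_sum (f := fun s : ℕ => (if s ∣ n then (1 : ℝ) else 0))
        (s := (Icc 1 M).filter
          (fun d : ℕ => d.primeFactors ⊆ Q ∧ Z1 < (d : ℝ) ∧ (d : ℝ) ≤ Z2))
        (fun s _ => by split_ifs <;> simp)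
        (a := d) (by
          rw [mem_filter, mem_Icc]
          exact ⟨⟨by omega, hdM⟩, (Nat.primeFactors_mono hd1 hD0).trans hDQ, hd2, h5⟩)
      simp only [if_pos hdn] at h9
      exact h9
    have e5 : K * 1 ≤ K * _ := mul_le_mul_of_nonneg_left e4 hK0
    linarith

/-- (B) -/
theorem B_bound (E : Env) (hG : E.GBounds) : ∃ J : ℕ, 1 ≤ J ∧ ∀ j : ℕ, J ≤ j → ∀ i : ℕ, j ≤ i →
    ∀ k : ℕ, k < nc E.δ i → ∑ n ∈ cell E.δ i k,
      cm (fun p : ℕ => if (p : ℝ) ≤ (2 : ℝ) ^ (1 / 20 * (i : ℝ)) then 1 + 2 * (p * E.gh j p) else 1) n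
        ≤ 5 * hh E.δ i := by
  have hδ := E.hδ
  have hδt := E.hδ'
  have hτ := E.hτ
  have hτ' := E.hτ'
  obtain ⟨J0, hJ0, hJ⟩ := hG
  obtain ⟨J1, hJ1⟩ := large (E.τ / 16 - 9 * E.δ) 8 0 (by linarith)
  obtain ⟨J2, hJ2⟩ := large (1 / 5 - E.δ) 2 0 (by linarith)
  refine ⟨J0 + J1 + J2 + 10, by omega, fun j hj i hij k hk => ?_⟩
  obtain ⟨-, -, g3, -, g5, -, g7, g8, -⟩ := hJ j (by omega)
  have hjR : (10 : ℝ) ≤ j := by exact_mod_cast (by omega : 10 ≤ j)
  have hh0 := hh_posR E.δ i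
  set b : ℕ → ℝ := fun q => 2 * (q * E.gh j q) with hb
  have hb0 : ∀ q, 0 ≤ b q := by
    intro q
    have := g3 q
    simp only [hb]
    positivity
  set Q : Finset ℕ := (range (2 ^ i + 1)).filter (fun q : ℕ =>
    (q : ℝ) ≤ (2 : ℝ) ^ (1 / 20 * (i : ℝ)) ∧ E.gh j q ≠ 0) with hQ
  have hQp : ∀ q ∈ Q, q.Prime := by
    intro q hq
    rw [hQ, mem_filter] at hq
    exact (g5 q hq.2.2).1.1
  have hiR : (0 : ℝ) ≤ i := by positivity
  have e1 : ∀ n ∈ cell E.δ i k,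
      cm (fun p : ℕ => if (p : ℝ) ≤ (2 : ℝ) ^ (1 / 20 * (i : ℝ)) then 1 + 2 * (p * E.gh j p)
        else 1) n = cm (fun q => if q ∈ Q then 1 + b q else 1) n := by
    intro n hn
    apply cm_congr
    intro q hq
    by_cases h4 : (q : ℝ) ≤ (2 : ℝ) ^ (1 / 20 * (i : ℝ))
    · rw [if_pos h4]
      by_cases h5 : E.gh j q = 0
      · have h6 : q ∉ Q := by
          rw [hQ, mem_filter]
          exact fun h => h.2.2 h5
        rw [if_neg h6, h5]
        ring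
      · have h6 : (q : ℝ) ≤ 2 ^ i := by
          refine h4.trans ?_
          rw [← Real.rpow_natCast]
          apply Real.rpow_le_rpow_of_exponent_le (by norm_num)
          linarith
        have h7 : q ≤ 2 ^ i := by exact_mod_cast h6
        have h8 : q ∈ Q := by
          rw [hQ, mem_filter, mem_range]
          exact ⟨by omega, h4, h5⟩
        rw [if_pos h8]
    · rw [if_neg h4]
      have h6 : q ∉ Q := by
        rw [hQ, mem_filter]
        exact fun h => h4 h.2.1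
      rw [if_neg h6]
  rw [sum_congr rfl e1]
  set Z1 : ℝ := (2 : ℝ) ^ (1 / 4 * (i : ℝ)) with hZ1
  set Z2 : ℝ := (2 : ℝ) ^ (3 / 10 * (i : ℝ)) with hZ2
  set K : ℝ := 2 * (2 : ℝ) ^ (9 * E.δ * i) with hK
  set M : ℕ := 2 ^ (i + 1) with hM
  set W1 := (Icc 1 M).filter (fun d : ℕ => d.primeFactors ⊆ Q ∧ (d : ℝ) ≤ Z1) with hW1
  set W2 := (Icc 1 M).filter (fun d : ℕ => d.primeFactors ⊆ Q ∧ Z1 < (d : ℝ) ∧ (d : ℝ) ≤ Z2) with hW2
  have hZ12 : Z1 ≤ Z2 := by
    apply Real.rpow_le_rpow_of_exponent_le (by norm_num)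
    linarith
  have hpt : ∀ n ∈ cell E.δ i k, cm (fun q => if q ∈ Q then 1 + b q else 1) n ≤
      ∑ d ∈ W1, cm (fun p => 1 + b p) d * (if d ∣ n then 1 else 0) +
      K * ∑ d ∈ W2, (if d ∣ n then (1 : ℝ) else 0) := by
    intro n hn
    have hn2 := cell_sub hδ.le hk hn
    apply B_point b hb0 Q (9 * E.δ) Z1 Z2 K ((2 : ℝ) ^ (1 / 20 * (i : ℝ))) (by linarith)
    · intro q hq
      rw [hQ, mem_filter] at hq
      exact (g7 q hq.2.2).2
    · intro q hq
      rw [hQ, mem_filter] at hq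
      exact hq.2.1
    · exact Real.one_le_rpow (by norm_num) (by positivity)
    · rw [hZ1, hZ2, ← Real.rpow_add (by norm_num)]
      apply le_of_eq
      congr 1; ring
    · omega
    · exact hn2.2
    · have hnR : (n : ℝ) ≤ (2 : ℝ) ^ ((i : ℝ) + 1) := by
        have : (n : ℝ) ≤ 2 ^ (i + 1) := by exact_mod_cast hn2.2
        rw [← Real.rpow_natCast] at this
        push_cast at this
        exact this
      calc (n : ℝ) ^ (9 * E.δ) ≤ ((2 : ℝ) ^ ((i : ℝ) + 1)) ^ (9 * E.δ) :=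
            Real.rpow_le_rpow (by positivity) hnR (by linarith)
        _ = (2 : ℝ) ^ (((i : ℝ) + 1) * (9 * E.δ)) := by rw [← Real.rpow_mul (by norm_num)]
        _ ≤ (2 : ℝ) ^ (1 + 9 * E.δ * i) := by
            apply Real.rpow_le_rpow_of_exponent_le (by norm_num)
            nlinarith
        _ = K := by rw [hK, Real.rpow_add (by norm_num), Real.rpow_one]
  refine (sum_le_sum hpt).trans ?_
  rw [sum_add_distrib, ← mul_sum, sum_comm (s := cell E.δ i k) (t := W1),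
    sum_comm (s := cell E.δ i k) (t := W2)]
  -- counting
  have hZ2h : Z2 ≤ hh E.δ i := by
    have h1 := hJ2 i (by omega)
    rw [pow_zero, mul_one] at h1
    have h2 := lt_hh (δ := E.δ) i
    have h3 : Z2 * (2 : ℝ) ^ ((1 / 5 - E.δ) * i) = (2 : ℝ) ^ ((1 / 2 - E.δ) * i) := by
      rw [hZ2, ← Real.rpow_add (by norm_num)]
      congr 1; ring
    have h4 : (0 : ℝ) < Z2 := by positivity
    nlinarith
  have hcount : ∀ d : ℕ, 1 ≤ d → (d : ℝ) ≤ Z2 →
      ∑ n ∈ cell E.δ i k, (if d ∣ n then (1 : ℝ) else 0) ≤ 2 * hh E.δ i / (d : ℝ) := by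
    intro d hpos hle
    have hposR : (0 : ℝ) < (d : ℝ) := by exact_mod_cast hpos
    rw [sum_boole]
    have h1 := card_mult (2 ^ i + k * hh E.δ i) (hh E.δ i) d hpos
    have h2 : cell E.δ i k = Ioc (2 ^ i + k * hh E.δ i) (2 ^ i + k * hh E.δ i + hh E.δ i) := by
      unfold cell
      congr 1; ring
    rw [h2]
    refine h1.trans ?_
    have h3 : (1 : ℝ) ≤ hh E.δ i / (d : ℝ) := by
      rw [le_div_iff₀ hposR, one_mul]
      exact hle.trans hZ2h
    have h4 : 2 * (hh E.δ i : ℝ) / (d : ℝ) =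
        hh E.δ i / (d : ℝ) + hh E.δ i / (d : ℝ) := by ring
    rw [h4]
    linarith
  have hlog := Real.log_two_gt_d9
  have hexp1 : Real.exp (2 * (1 / j)) ≤ 2 := by
    have h1 : (1 : ℝ) / j ≤ 1 / 10 := one_div_le_one_div_of_le (by norm_num) hjR
    calc Real.exp (2 * (1 / j)) ≤ Real.exp (Real.log 2) := by
          apply Real.exp_le_exp.2
          linarith
      _ = 2 := Real.exp_log (by norm_num)
  have hexp2 : Real.exp (2 * (3 * (1 / j))) ≤ 2 := by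
    have h1 : (1 : ℝ) / j ≤ 1 / 10 := one_div_le_one_div_of_le (by norm_num) hjR
    calc Real.exp (2 * (3 * (1 / j))) ≤ Real.exp (Real.log 2) := by
          apply Real.exp_le_exp.2
          linarith
      _ = 2 := Real.exp_log (by norm_num)
  have g8Q := g8 Q
  have hqpos : ∀ q ∈ Q, (1 : ℝ) ≤ q := fun q hq => by exact_mod_cast (hQp q hq).one_lt.le
  have h1j : (1 : ℝ) / j ≤ 1 / 10 := one_div_le_one_div_of_le (by norm_num) hjR
  -- sum of `q^(-1+τ/4)`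
  have hq2 : ∑ q ∈ Q, (q : ℝ) ^ (-1 + E.τ / 4) ≤ 1 / j := by
    refine le_trans (sum_le_sum ?_) g8Q
    intro q hq
    rw [hQ, mem_filter] at hq
    have h7 := (g5 q hq.2.2).2.2
    have h8 : 0 ≤ (q : ℝ) ^ (-1 + E.τ / 4) := by positivity
    nlinarith
  have hinv : ∀ q ∈ Q, (q : ℝ)⁻¹ ≤ (q : ℝ) ^ (-1 + E.τ / 4) := by
    intro q hq
    rw [← Real.rpow_neg_one]
    apply Real.rpow_le_rpow_of_exponent_le (hqpos q hq)
    linarith
  have hq1 : ∑ q ∈ Q, (1 + b q) * (1 / (q : ℝ)) ≤ 3 * (1 / j) := by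
    have h7 : ∀ q ∈ Q, (1 + b q) * (1 / (q : ℝ)) ≤
        (q : ℝ) ^ (-1 + E.τ / 4) + 2 * ((q * E.gh j q) * (q : ℝ) ^ (-1 + E.τ / 4)) := by
      intro q hq
      have h9 := hinv q hq
      have h8 := hqpos q hq
      simp only [hb]
      have h10 : 0 ≤ (q : ℝ) * E.gh j q := mul_nonneg (by linarith) (g3 q)
      rw [one_div]
      nlinarith
    refine (sum_le_sum h7).trans ?_
    rw [sum_add_distrib, ← mul_sum]
    linarith
  have ha1 : ∀ q ∈ Q, 0 ≤ (1 + b q) * (1 / (q : ℝ)) := by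
    intro q _
    have := hb0 q
    positivity
  have ha2 : ∀ q ∈ Q, (1 + b q) * (1 / (q : ℝ)) ≤ 1 / 2 := by
    intro q hq
    have := single_le_sum (f := fun q : ℕ => (1 + b q) * (1 / (q : ℝ))) ha1 hq
    linarith
  have hc1 : ∀ q ∈ Q, (0 : ℝ) ≤ (q : ℝ) ^ (-1 + E.τ / 4) := fun q _ => by positivity
  have hc2 : ∀ q ∈ Q, (q : ℝ) ^ (-1 + E.τ / 4) ≤ 1 / 2 := by
    intro q hq
    have := single_le_sum (f := fun q : ℕ => (q : ℝ) ^ (-1 + E.τ / 4)) hc1 hq
    linarith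
  -- first sum
  have hS1 : ∑ d ∈ W1, ∑ n ∈ cell E.δ i k,
      cm (fun p => 1 + b p) d * (if d ∣ n then (1 : ℝ) else 0) ≤ 4 * hh E.δ i := by
    have h1 : ∀ d ∈ W1, ∑ n ∈ cell E.δ i k,
        cm (fun p => 1 + b p) d * (if d ∣ n then (1 : ℝ) else 0) ≤
        2 * hh E.δ i * cm (fun q => (1 + b q) * (1 / (q : ℝ))) d := by
      intro d hd
      rw [hW1, mem_filter, mem_Icc] at hd
      rw [← mul_sum]
      have h2 := hcount d hd.1.1 (hd.2.2.trans hZ12)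
      have h3 : 0 ≤ cm (fun p => 1 + b p) d := cm_nonneg fun p _ => by
        have := hb0 p
        linarith
      refine (mul_le_mul_of_nonneg_left h2 h3).trans (le_of_eq ?_)
      rw [cm_mul_fun, cm_inv (by omega)]
      ring
    refine (sum_le_sum h1).trans ?_
    rw [← mul_sum]
    have h5 := sum_cm_le (fun q => (1 + b q) * (1 / (q : ℝ))) Q W1 hQp ha1 ha2 (by
      intro t ht
      rw [hW1, mem_filter, mem_Icc] at ht
      exact ⟨by omega, ht.2.1⟩)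
    have h12 : ∑ d ∈ W1, cm (fun q => (1 + b q) * (1 / (q : ℝ))) d ≤ 2 := by
      refine h5.trans (le_trans (Real.exp_le_exp.2 ?_) hexp2)
      linarith
    nlinarith
  -- second sum
  have hS2 : K * ∑ d ∈ W2, ∑ n ∈ cell E.δ i k, (if d ∣ n then (1 : ℝ) else 0) ≤
      hh E.δ i := by
    have h1 : ∀ d ∈ W2, ∑ n ∈ cell E.δ i k, (if d ∣ n then (1 : ℝ) else 0) ≤
        2 * hh E.δ i * (2 : ℝ) ^ (-(E.τ / 16) * (i : ℝ)) *
          cm (fun q => (q : ℝ) ^ (-1 + E.τ / 4)) d := by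
      intro d hs
      rw [hW2, mem_filter, mem_Icc] at hs
      obtain ⟨hs1, -, hs2, hs3⟩ := hs
      refine (hcount d hs1.1 hs3).trans ?_
      rw [cm_rpow _ (by omega)]
      have hZpos : (0 : ℝ) < Z1 := by positivity
      have hdpos : (0 : ℝ) < d := hZpos.trans hs2
      have h2 : (d : ℝ) ^ (-1 + E.τ / 4) = (d : ℝ)⁻¹ * (d : ℝ) ^ (E.τ / 4) := by
        rw [Real.rpow_add hdpos, Real.rpow_neg_one]
      have h3 : (2 : ℝ) ^ (E.τ / 16 * (i : ℝ)) ≤ (d : ℝ) ^ (E.τ / 4) := by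
        have h4 : (2 : ℝ) ^ (E.τ / 16 * (i : ℝ)) = Z1 ^ (E.τ / 4) := by
          rw [hZ1, ← Real.rpow_mul (by norm_num)]
          congr 1; ring
        rw [h4]
        exact Real.rpow_le_rpow hZpos.le hs2.le (by linarith)
      have h5 : (2 : ℝ) ^ (-(E.τ / 16) * (i : ℝ)) * (2 : ℝ) ^ (E.τ / 16 * (i : ℝ)) = 1 := by
        rw [← Real.rpow_add (by norm_num)]
        rw [show -(E.τ / 16) * (i : ℝ) + E.τ / 16 * (i : ℝ) = 0 by ring, Real.rpow_zero]
      rw [h2]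
      have h6 : 2 * (hh E.δ i : ℝ) / d = 2 * hh E.δ i * (d : ℝ)⁻¹ *
          ((2 : ℝ) ^ (-(E.τ / 16) * (i : ℝ)) * (2 : ℝ) ^ (E.τ / 16 * (i : ℝ))) := by
        rw [h5]; ring
      rw [h6]
      have h7 : 2 * (hh E.δ i : ℝ) * (d : ℝ)⁻¹ *
          ((2 : ℝ) ^ (-(E.τ / 16) * (i : ℝ)) * (2 : ℝ) ^ (E.τ / 16 * (i : ℝ))) ≤
          2 * (hh E.δ i : ℝ) * (d : ℝ)⁻¹ *
          ((2 : ℝ) ^ (-(E.τ / 16) * (i : ℝ)) * (d : ℝ) ^ (E.τ / 4)) := by
        apply mul_le_mul_of_nonneg_left _ (by positivity)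
        exact mul_le_mul_of_nonneg_left h3 (by positivity)
      refine h7.trans (le_of_eq ?_)
      ring
    have h2 : ∑ d ∈ W2, ∑ n ∈ cell E.δ i k, (if d ∣ n then (1 : ℝ) else 0) ≤
        2 * hh E.δ i * (2 : ℝ) ^ (-(E.τ / 16) * (i : ℝ)) * 2 := by
      refine (sum_le_sum h1).trans ?_
      rw [← mul_sum]
      apply mul_le_mul_of_nonneg_left _ (by positivity)
      have h5 := sum_cm_le (fun q => (q : ℝ) ^ (-1 + E.τ / 4)) Q W2 hQp hc1 hc2 (by
        intro t ht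
        rw [hW2, mem_filter, mem_Icc] at ht
        exact ⟨by omega, ht.2.1⟩)
      refine h5.trans (le_trans (Real.exp_le_exp.2 ?_) hexp1)
      linarith
    have hbig := hJ1 i (by omega)
    rw [pow_zero, mul_one] at hbig
    have h3 : (2 : ℝ) ^ (9 * E.δ * i) * (2 : ℝ) ^ ((E.τ / 16 - 9 * E.δ) * i) *
        (2 : ℝ) ^ (-(E.τ / 16) * (i : ℝ)) = 1 := by
      rw [← Real.rpow_add (by norm_num), ← Real.rpow_add (by norm_num)]
      rw [show 9 * E.δ * i + (E.τ / 16 - 9 * E.δ) * i + -(E.τ / 16) * (i : ℝ) = 0 by ring,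
        Real.rpow_zero]
    have hKpos : 0 ≤ K := by positivity
    refine (mul_le_mul_of_nonneg_left h2 hKpos).trans ?_
    rw [hK]
    have h4 : 2 * (2 : ℝ) ^ (9 * E.δ * i) * (2 * hh E.δ i * (2 : ℝ) ^ (-(E.τ / 16) * (i : ℝ)) * 2)
        = hh E.δ i * ((2 : ℝ) ^ (9 * E.δ * i) * 8 * (2 : ℝ) ^ (-(E.τ / 16) * (i : ℝ))) := by ring
    rw [h4]
    have h5 : (2 : ℝ) ^ (9 * E.δ * i) * 8 * (2 : ℝ) ^ (-(E.τ / 16) * (i : ℝ)) ≤ 1 := by
      rw [← h3]
      apply mul_le_mul_of_nonneg_right _ (by positivity)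
      exact mul_le_mul_of_nonneg_left hbig (by positivity)
    nlinarith
  linarith

/-- task SP -/
theorem spart (E : Env) (hG : E.GBounds) : SPart E := by
  obtain ⟨JA, -, hA⟩ := A_bound E hG
  obtain ⟨JB, -, hB⟩ := B_bound E hG
  obtain ⟨J0, hJ0, hJ⟩ := hG
  refine ⟨JA + JB + J0 + 3, fun j hj i hij k hk => ?_⟩
  have hA' := hA j (by omega) i hij
  have hB' := hB j (by omega) i hij k hk
  have hδ := E.hδ
  have hiR : (3 : ℝ) ≤ i := by exact_mod_cast (by omega : 3 ≤ i)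
  have hgu := gu_nonneg E j
  have hgh := gh_nonneg E j
  set a : ℝ := (2 : ℝ) ^ (E.δ / 2 * i) / (i : ℝ) ^ 50 with ha
  have hapos : 0 < a := by positivity
  set Bf : ℕ → ℝ := fun p : ℕ => if (p : ℝ) ≤ (2 : ℝ) ^ (1 / 20 * (i : ℝ)) then
    1 + 2 * (p * E.gh j p) else 1 with hBf
  set Af : ℕ → ℝ := fun p : ℕ => if (p : ℝ) ≤ (2 : ℝ) ^ (3 / 5 * (i : ℝ)) then
    1 + 2 * (p * E.gu j p) else 1 with hAf
  have hB0 : ∀ n : ℕ, 0 ≤ cm Bf n := fun n => cm_nonneg fun p _ => by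
    simp only [hBf]
    have := hgh p
    split_ifs <;> positivity
  have h1 : ∀ n ∈ cell E.δ i k,
      (1 / (n : ℝ)) * cm (fun p => 1 + 2 * (p * E.gs j i p)) n ≤
        (1 / 2 ^ i * a) * cm Bf n := by
    intro n hn
    have hn2 := cell_sub hδ.le hk hn
    have hnR : (2 : ℝ) ^ i ≤ n := by exact_mod_cast hn2.1.le
    have h2 : cm (fun p => 1 + 2 * (p * E.gs j i p)) n ≤ cm Af n * cm Bf n := by
      rw [← cm_mul_fun]
      apply cm_mono
      · intro p _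
        unfold Env.gs
        have h3 := hgu p
        have h4 := hgh p
        split_ifs <;> positivity
      · intro p _
        unfold Env.gs
        simp only [hAf, hBf]
        have h3 : 0 ≤ (p : ℝ) * E.gu j p := mul_nonneg (Nat.cast_nonneg p) (hgu p)
        have h4 : 0 ≤ (p : ℝ) * E.gh j p := mul_nonneg (Nat.cast_nonneg p) (hgh p)
        split_ifs
        · nlinarith [mul_nonneg h3 h4]
        · nlinarith
        · nlinarith
        · nlinarith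
    have h5 := hA' n (by omega) hn2.2
    have h6 : cm (fun p => 1 + 2 * (p * E.gs j i p)) n ≤ a * cm Bf n :=
      h2.trans (mul_le_mul_of_nonneg_right h5 (hB0 n))
    have h7 : 1 / (n : ℝ) ≤ 1 / 2 ^ i := one_div_le_one_div_of_le (by positivity) hnR
    calc (1 / (n : ℝ)) * cm (fun p => 1 + 2 * (p * E.gs j i p)) n ≤
        (1 / (n : ℝ)) * (a * cm Bf n) :=
          mul_le_mul_of_nonneg_left h6 (by positivity)
      _ ≤ (1 / 2 ^ i) * (a * cm Bf n) :=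
          mul_le_mul_of_nonneg_right h7 (mul_nonneg hapos.le (hB0 n))
      _ = _ := by ring
  refine (sum_le_sum h1).trans ?_
  rw [← mul_sum]
  have h3 : (1 / 2 ^ i * a) * ∑ n ∈ cell E.δ i k, cm Bf n ≤ (1 / 2 ^ i * a) * (5 * hh E.δ i) :=
    mul_le_mul_of_nonneg_left hB' (by positivity)
  refine h3.trans ?_
  have h4 := hh_le (δ_half E) i
  have h5 : (1 / 2 ^ i * a) * (5 * hh E.δ i) ≤
      (1 / 2 ^ i * a) * (5 * (2 : ℝ) ^ ((1 / 2 - E.δ) * i)) := by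
    apply mul_le_mul_of_nonneg_left _ (by positivity)
    linarith
  refine h5.trans ?_
  have h6 : (1 / 2 ^ i * a) * (5 * (2 : ℝ) ^ ((1 / 2 - E.δ) * i)) = 5 / (i : ℝ) ^ 10 * E.w i := by
    unfold Env.w
    have e1 : (2 : ℝ) ^ (-(1 / 2 + E.δ / 2) * (i : ℝ)) * (2 : ℝ) ^ i =
      (2 : ℝ) ^ ((1 / 2 - E.δ) * i) * (2 : ℝ) ^ (E.δ / 2 * i) := exp_id1 E i
    rw [ha]
    have e2 : (1 / 2 ^ i * ((2 : ℝ) ^ (E.δ / 2 * i) / (i : ℝ) ^ 50)) *
        (5 * (2 : ℝ) ^ ((1 / 2 - E.δ) * i)) = 5 / (i : ℝ) ^ 50 *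
        (((2 : ℝ) ^ ((1 / 2 - E.δ) * i) * (2 : ℝ) ^ (E.δ / 2 * i)) / 2 ^ i) := by ring
    rw [e2, ← e1]
    field_simp
  rw [h6]
  have h7 : 5 / (i : ℝ) ^ 10 ≤ 1 / 16 := by
    rw [div_le_div_iff₀ (by positivity) (by norm_num)]
    have : (3 : ℝ) ^ 10 ≤ (i : ℝ) ^ 10 := pow_le_pow_left₀ (by norm_num) hiR 10
    linarith
  have h8 := w_nonneg E i
  have h9 := mul_le_mul_of_nonneg_right h7 h8
  linarith

end Pool.Agent.R888.CM
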