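import Pool.Agent.R888.CM.Last
import Pool.Agent.R888.CM.UP
import Pool.Agent.R888.CM.ES
import Pool.Agent.R888.CM.SPB
import Pool.Agent.R888.CM.H1
import Pool.Agent.R888.CM.HB
import Pool.Agent.R888.CM.HA
import Pool.Agent.R888.CM.HX
import Pool.Agent.W761.MO.BTR
import Pool.Agent.W613.MO.ZA
import Pool.Agent.W475.MO.GI
import Pool.Agent.W726.MO.BC
import Pool.Agent.W815.MO.CL
import Pool.Agent.W475.MO.FB
import Pool.Agent.W565.MOFS
import Pool.Agent.W377.MO.US
import Pool.Agent.W501.MO.HC
import Pool.Agent.W683.MO.GB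
import Pool.Agent.W1.MO.PB
import Pool.Agent.W161.MO.MR3
import Pool.Agent.W544.MO.Ho

/-!
# The Riemann hypothesis gives a completely multiplicative function with sum zero whose partial
sums are `O(N^(-1/2-c))`
-/

set_option autoImplicit false

namespace Pool.Agent.R888.CM

open Finset Filter Topology
open scoped Classical
open Pool.Agent.W76.MO

theorem env_concl (E : Env) : ConclCM := by
  have hHC : E.HCount := Pool.Agent.W501.MO.hc E
  have hGB : E.GBounds := Pool.Agent.W683.MO.gb E hHC
  have hES := esum E hGB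
  have hUP := upart E hGB hES
  have hSP := spart E hGB
  have hPB := Pool.Agent.W1.MO.pb E.τ E.δ E.hτ E.hτ' E.hδ E.hδ'
  have hHP := hpart E hGB (h1 E hGB) (hpa E hHC hGB hES) (hpb E hHC hGB hPB)
  obtain ⟨R, j, z, a1, -, a3, a4, a5, a6⟩ := system E hGB hHC (keyC E hGB hUP hHP hSP)
  exact (SolC.mk a1 a3 a4 a5 a6 : SolC E R j z).concl

theorem hosts : Hosts := Pool.Agent.W544.MO.main Pool.Agent.W761.MO.btr
  (Pool.Agent.W161.MO.midRange Pool.Agent.W565.MOFS.FS)

theorem concl_of_RH (hRH : RiemannHypothesis) : ConclCM := by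
  have BTRh : BTR := Pool.Agent.W761.MO.btr
  have hFew : FewBad := Pool.Agent.W475.MO.fb
    (Pool.Agent.W726.MOBC.main Pool.Agent.W613.MO.za Pool.Agent.W475.MO.gi)
    (Pool.Agent.W815.CL.cellLow BTRh)
  obtain ⟨τ₀, γ₀, c, δ₀, hτ₀, hγ₀, hc, hδ₀, hhost⟩ := hosts
  set τ : ℝ := min (min τ₀ γ₀) (1 / 100) with hτd
  have hτ : 0 < τ := lt_min (lt_min hτ₀ hγ₀) (by norm_num)
  have hτ1 : τ ≤ 1 / 100 := min_le_right _ _
  set δ : ℝ := min δ₀ (τ / 1000) with hδd
  have hδ : 0 < δ := lt_min hδ₀ (by positivity)
  have hδ1 : δ ≤ τ / 1000 := min_le_right _ _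
  obtain ⟨i₀, hi₀, hhost⟩ := hhost δ hδ (min_le_left _ _)
  obtain ⟨isU, CU, cU, i₁, hCU, hcU, hi₁, hup, huu, hub⟩ :=
    Pool.Agent.W377.MOUS.us BTRh hFew hRH τ δ hτ hτ1 hδ hδ1
  obtain ⟨CB, hCB, i₂, hi₂, hbtr⟩ := BTRh τ (τ / 4) hτ (by positivity)
  exact env_concl
    { τ := τ, δ := δ, CU := CU, cU := cU, cH := c, CB := max CB 1, isU := isU
      i₁ := i₀ + i₁ + i₂
      hτ := hτ, hτ' := hτ1, hδ := hδ, hδ' := hδ1, hCU := hCU, hcU := hcU, hcH := hc
      hCB := le_max_right _ _
      hi₁ := by omega
      u_prime := hup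
      u_up := fun i hi => huu i (by omega)
      u_bad := fun i hi => hub i (by omega)
      host := by
        intro i hi k hk
        have hmul := nc_mul δ hδ i
        have hlt : (k + 1) * hh δ i ≤ nc δ i * hh δ i := Nat.mul_le_mul_right _ hk
        have h1 := hhost i (by omega) (2 ^ i + k * hh δ i) (by omega) (by
          rw [pow_succ]
          have : k * hh δ i ≤ (k + 1) * hh δ i := Nat.mul_le_mul_right _ (Nat.le_succ k)
          omega)
        refine h1.trans ?_
        have hi0 : (0 : ℝ) ≤ i := Nat.cast_nonneg i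
        have hsub : (Ioc (2 ^ i + k * hh δ i) (2 ^ i + k * hh δ i + hh δ i)).filter
            (HostNum τ₀ γ₀ i) ⊆ (cell δ i k).filter (HostNum τ τ i) := by
          intro n hn
          rw [mem_filter, mem_Ioc] at hn
          rw [mem_filter]
          refine ⟨?_, ?_⟩
          · unfold cell
            rw [mem_Ioc]
            have : (k + 1) * hh δ i = k * hh δ i + hh δ i := by ring
            omega
          · obtain ⟨m, q, h1, h2, h3, h4, h5, h6⟩ := hn.2
            refine ⟨m, q, h1, h2, ?_, h4, h5, ?_⟩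
            · refine le_trans (Real.rpow_le_rpow_of_exponent_le (by norm_num) ?_) h3
              have : τ ≤ τ₀ := (min_le_left _ _).trans (min_le_left _ _)
              apply mul_le_mul_of_nonneg_right _ hi0
              linarith
            · intro p hp hpm
              refine le_trans (Real.rpow_le_rpow_of_exponent_le (by norm_num) ?_) (h6 p hp hpm)
              have : τ ≤ γ₀ := (min_le_left _ _).trans (min_le_right _ _)
              exact mul_le_mul_of_nonneg_right this hi0
        exact_mod_cast Finset.card_le_card hsub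
      btr := by
        intro i hi a L hL
        refine (hbtr i (by omega) a L hL).trans ?_
        have hi0 : (0 : ℝ) < i := by
          have : 0 < i := by omega
          exact_mod_cast this
        gcongr
        exact le_max_left _ _ }

end Pool.Agent.R888.CM
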