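import Pool.Agent.R888.CM.FC

/-!
# The first block (completely multiplicative version)
-/

set_option autoImplicit false

namespace Pool.Agent.R888.CM

open Finset Filter Topology
open scoped Classical
open Pool.Agent.W76.MO

/-- rough numbers up to `2^j` -/
noncomputable def A0 (R j : ℕ) : Finset ℕ := (Icc 1 (2 ^ j)).filter (fun n => Rough R n)

variable (E : Env)

lemma tau_first (hGB : E.GBounds) (R : ℕ) : ∃ J : ℕ, 1 ≤ J ∧ ∀ j : ℕ, J ≤ j →
    (E.UB j).Nonempty ∧ (∀ p ∈ E.UB j, p.Prime) ∧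
    ∑ n ∈ A0 R j, tauC E j n ≤ 8 * j + 8 * j / 4 := by
  obtain ⟨J, hJ, hGB⟩ := hGB
  refine ⟨J + 3, by omega, fun j hj => ?_⟩
  obtain ⟨hUB, hu0, hh0, hgu, hgh, _, hghq, hsum, _⟩ := hGB j (by omega)
  have hj1 : 1 ≤ j := by omega
  have hj3 : 3 ≤ j := by omega
  have hjr : (1 : ℝ) ≤ j := by exact_mod_cast hj1
  have hcU := E.hcU
  have hg0 : ∀ p, 0 ≤ E.g j p := fun p => add_nonneg (hu0 p) (hh0 p)
  have hcard : 0 < ((E.UB j).card : ℝ) := lt_of_lt_of_le (by positivity) hUB
  have hUBp : ∀ p ∈ E.UB j, p.Prime := by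
    intro p hp
    unfold Env.UB at hp
    exact E.u_prime p (mem_filter.1 hp).2
  refine ⟨by exact Finset.card_pos.1 (by exact_mod_cast hcard), hUBp, ?_⟩
  -- every prime with a perturbation is large
  have hlarge : ∀ p : ℕ, E.g j p ≠ 0 → (2 : ℝ) ^ ((j : ℝ) / 2) ≤ p := by
    intro p hp
    by_cases h1 : E.gh j p = 0
    · have h2 : E.gu j p ≠ 0 := by
        intro h2
        apply hp
        unfold Env.g
        rw [h1, h2, add_zero]
      have h3 := (hgu p h2).2
      have h4 : (2 : ℝ) ^ ((j : ℝ) / 2) ≤ (2 : ℝ) ^ (((j - 1 : ℕ) : ℝ)) := by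
        apply Real.rpow_le_rpow_of_exponent_le (by norm_num)
        rw [Nat.cast_sub hj1]
        have : (3 : ℝ) ≤ j := by exact_mod_cast hj3
        push_cast
        linarith
      rw [Real.rpow_natCast] at h4
      have h5 : ((2 ^ (j - 1) : ℕ) : ℝ) < p := by exact_mod_cast h3
      push_cast at h5
      linarith
    · exact (hghq p h1).1
  have hinj : ∀ p q : ℕ, p.Prime → E.g j p ≠ 0 → E.g j q ≠ 0 → 2 ^ j < p * q := by
    intro p q hpp hp hq
    have h1 := hlarge p hp
    have h2 := hlarge q hq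
    have h3 : (2 : ℝ) ^ ((j : ℝ) / 2) * (2 : ℝ) ^ ((j : ℝ) / 2) = ((2 ^ j : ℕ) : ℝ) := by
      rw [← Real.rpow_add (by norm_num)]
      push_cast
      rw [← Real.rpow_natCast]
      congr 1
      ring
    have h4 : (0 : ℝ) < (2 : ℝ) ^ ((j : ℝ) / 2) := by positivity
    have h5 : ((2 ^ j : ℕ) : ℝ) ≤ ((p * q : ℕ) : ℝ) := by
      rw [← h3]; push_cast
      exact mul_le_mul h1 h2 h4.le (h4.le.trans h1)
    have h6 : 2 ^ j ≤ p * q := by exact_mod_cast h5
    rcases h6.lt_or_eq with h | h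
    · exact h
    · exfalso
      have h7 : p ∣ 2 ^ j := by rw [h]; exact Dvd.intro q rfl
      have h8 : p = 2 := (Nat.prime_dvd_prime_iff_eq hpp Nat.prime_two).1 (hpp.dvd_of_dvd_pow h7)
      rw [h8] at h1
      have h9 : (2 : ℝ) ^ (1 : ℝ) < (2 : ℝ) ^ ((j : ℝ) / 2) := by
        apply Real.rpow_lt_rpow_of_exponent_lt (by norm_num)
        have : (3 : ℝ) ≤ j := by exact_mod_cast hj3
        linarith
      rw [Real.rpow_one] at h9
      push_cast at h1
      linarith
  -- tau for n in A0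
  have htau : ∀ n ∈ A0 R j, tauC E j n = ∑ p ∈ n.primeFactors, E.g j p * (1 / ((n / p : ℕ) : ℝ)) := by
    intro n hn
    unfold A0 at hn
    rw [mem_filter, mem_Icc] at hn
    obtain ⟨⟨hn1, hn2⟩, _⟩ := hn
    rw [tauC_eq E j n hg0, mul_sum]
    refine sum_congr rfl fun p hp => ?_
    by_cases hg : E.g j p = 0
    · rw [hg]; ring
    have hpp := Nat.prime_of_mem_primeFactors hp
    have hpn := Nat.dvd_of_mem_primeFactors hp
    have hp0 : (p : ℝ) ≠ 0 := by exact_mod_cast hpp.ne_zero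
    have hn0 : (n : ℝ) ≠ 0 := by
      have : n ≠ 0 := by omega
      exact_mod_cast this
    have hf : n.factorization p = 1 := by
      have h3 : 0 < n.factorization p := hpp.factorization_pos_of_dvd (by omega) hpn
      by_contra hne
      have h2 : 2 ≤ n.factorization p := by omega
      have h4 : p ^ 2 ∣ n := (pow_dvd_pow p h2).trans (Nat.ordProj_dvd n p)
      have h5 : p ^ 2 ≤ n := Nat.le_of_dvd (by omega) h4
      have h6 := hinj p p hpp hg hg
      rw [← sq] at h6
      omega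
    have h3 : cm (fun p => 1 + p * E.g j p) (n / p) = 1 := by
      have h4 : cm (fun p => 1 + p * E.g j p) (n / p) = cm (fun _ => 1) (n / p) := by
        apply cm_congr
        intro q hq
        have hg2 : E.g j q = 0 := by
          by_contra hg2
          have hqp := Nat.prime_of_mem_primeFactors hq
          have hqn := Nat.dvd_of_mem_primeFactors hq
          have hdvd : q * p ∣ n := by
            have := Nat.mul_dvd_mul_left p hqn
            rwa [Nat.mul_div_cancel' hpn, mul_comm] at this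
          have h7 := Nat.le_of_dvd hn1 hdvd
          have h8 := hinj q p hqp hg2 hg
          omega
        rw [hg2, mul_zero, add_zero]
      rw [h4]
      unfold cm
      simp
    rw [h3, hf, cast_div_prime n p hp]
    push_cast
    field_simp
  have hsplit : ∑ n ∈ A0 R j, tauC E j n =
      ∑ n ∈ A0 R j, ∑ p ∈ n.primeFactors, E.gu j p * (1 / ((n / p : ℕ) : ℝ)) +
      ∑ n ∈ A0 R j, ∑ p ∈ n.primeFactors, E.gh j p * (1 / ((n / p : ℕ) : ℝ)) := by
    rw [← sum_add_distrib]
    refine sum_congr rfl fun n hn => ?_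
    rw [htau n hn, ← sum_add_distrib]
    refine sum_congr rfl fun p _ => ?_
    unfold Env.g
    ring
  -- first part
  have hp1 : ∑ n ∈ A0 R j, ∑ p ∈ n.primeFactors, E.gu j p * (1 / ((n / p : ℕ) : ℝ)) ≤ 8 * j := by
    have h1 : ∀ n ∈ A0 R j, ∑ p ∈ n.primeFactors, E.gu j p * (1 / ((n / p : ℕ) : ℝ)) =
        if n ∈ E.UB j then 8 * j / ((E.UB j).card : ℝ) else 0 := by
      intro n hn
      unfold A0 at hn
      rw [mem_filter, mem_Icc] at hn
      obtain ⟨⟨hn1, hn2⟩, _⟩ := hn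
      have hkey : ∀ p ∈ n.primeFactors, E.gu j p ≠ 0 → p = n ∧ n ∈ E.UB j := by
        intro p hp hg
        have hpn := Nat.dvd_of_mem_primeFactors hp
        obtain ⟨hU, hlt⟩ := hgu p hg
        obtain ⟨m, rfl⟩ := hpn
        have hjj : 2 ^ j = 2 * 2 ^ (j - 1) := by
          rw [← pow_succ']
          congr 1
          omega
        have hm : m = 1 := by
          have hm0 : m ≠ 0 := by rintro rfl; omega
          by_contra hm1
          have : 2 ≤ m := by omega
          nlinarith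
        subst hm
        rw [mul_one] at hn2 ⊢
        exact ⟨rfl, by unfold Env.UB; exact mem_filter.2 ⟨mem_Ioc.2 ⟨hlt, hn2⟩, hU⟩⟩
      split_ifs with hmem
      · have hnp := hUBp n hmem
        rw [hnp.primeFactors, sum_singleton, Nat.div_self hnp.pos]
        have hgun : E.gu j n = 8 * j / ((E.UB j).card : ℝ) := by
          have hmem' := hmem
          unfold Env.UB at hmem'
          rw [mem_filter, mem_Ioc] at hmem'
          unfold Env.gu
          rw [if_pos ⟨hmem'.2, hmem'.1.1⟩, if_pos hmem'.1.2]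
        rw [hgun]
        simp
      · refine sum_eq_zero fun p hp => ?_
        by_cases hg : E.gu j p = 0
        · rw [hg, zero_mul]
        · exact absurd (hkey p hp hg).2 hmem
    rw [sum_congr rfl h1, ← sum_filter, sum_const, nsmul_eq_mul]
    have h2 : (((A0 R j).filter (fun n => n ∈ E.UB j)).card : ℝ) ≤ ((E.UB j).card : ℝ) := by
      exact_mod_cast Finset.card_le_card (fun n hn => (mem_filter.1 hn).2)
    calc (((A0 R j).filter (fun n => n ∈ E.UB j)).card : ℝ) * (8 * j / ((E.UB j).card : ℝ))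
        ≤ ((E.UB j).card : ℝ) * (8 * j / ((E.UB j).card : ℝ)) :=
          mul_le_mul_of_nonneg_right h2 (by positivity)
      _ = 8 * j := by field_simp
  -- second part
  have hp2 : ∑ n ∈ A0 R j, ∑ p ∈ n.primeFactors, E.gh j p * (1 / ((n / p : ℕ) : ℝ)) ≤ 2 := by
    have h1 : ∑ n ∈ A0 R j, ∑ p ∈ n.primeFactors, E.gh j p * (1 / ((n / p : ℕ) : ℝ)) ≤
        ∑ x ∈ (Icc (1 : ℕ) (2 ^ j)) ×ˢ (Icc (1 : ℕ) (2 ^ j)), E.gh j x.1 * (1 / (x.2 : ℝ)) := by
      rw [sum_sigma']
      have hi : Set.InjOn (fun x : (_ : ℕ) × ℕ => ((x.2, x.1 / x.2) : ℕ × ℕ))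
          (((A0 R j).sigma fun n => n.primeFactors : Finset ((_ : ℕ) × ℕ)) : Set ((_ : ℕ) × ℕ)) := by
        rintro ⟨n, p⟩ hx ⟨n', p'⟩ hy hxy
        simp only [Finset.coe_sigma, Set.mem_sigma_iff, Finset.mem_coe] at hx hy
        simp only [Prod.mk.injEq] at hxy
        obtain ⟨h1, h2⟩ := hxy
        subst h1
        have e1 := Nat.div_mul_cancel (Nat.dvd_of_mem_primeFactors hx.2)
        have e2 := Nat.div_mul_cancel (Nat.dvd_of_mem_primeFactors hy.2)
        have : n = n' := by rw [← e1, ← e2, h2]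
        subst this
        rfl
      have e : ∑ x ∈ (A0 R j).sigma fun n => n.primeFactors,
            E.gh j x.2 * (1 / ((x.1 / x.2 : ℕ) : ℝ)) =
          ∑ y ∈ ((A0 R j).sigma fun n => n.primeFactors).image
            (fun x : (_ : ℕ) × ℕ => ((x.2, x.1 / x.2) : ℕ × ℕ)), E.gh j y.1 * (1 / (y.2 : ℝ)) := by
        rw [sum_image hi]
      rw [e]
      refine sum_le_sum_of_subset_of_nonneg ?_ fun x _ _ => mul_nonneg (hh0 _) (by positivity)
      intro y hy
      rw [mem_image] at hy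
      obtain ⟨⟨n, p⟩, hx, rfl⟩ := hy
      rw [mem_sigma] at hx
      obtain ⟨hn, hp⟩ := hx
      simp only at hn hp
      unfold A0 at hn
      rw [mem_filter, mem_Icc] at hn
      have hpp := Nat.prime_of_mem_primeFactors hp
      have hpn := Nat.le_of_dvd hn.1.1 (Nat.dvd_of_mem_primeFactors hp)
      simp only [mem_product, mem_Icc]
      refine ⟨⟨hpp.one_le, hpn.trans hn.1.2⟩, ?_, (Nat.div_le_self _ _).trans hn.1.2⟩
      exact Nat.div_pos hpn hpp.pos
    refine h1.trans ?_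
    rw [sum_product]
    simp only
    have h2 : ∑ x ∈ Icc (1 : ℕ) (2 ^ j), ∑ y ∈ Icc (1 : ℕ) (2 ^ j), E.gh j x * (1 / (y : ℝ)) =
        (∑ x ∈ Icc (1 : ℕ) (2 ^ j), E.gh j x) * ∑ y ∈ Icc (1 : ℕ) (2 ^ j), 1 / (y : ℝ) := by
      rw [sum_mul_sum]
    rw [h2]
    have h3 : ∑ x ∈ Icc (1 : ℕ) (2 ^ j), E.gh j x ≤ 1 / j := by
      refine le_trans (sum_le_sum fun q hq => ?_) (hsum (Icc 1 (2 ^ j)))
      rw [mem_Icc] at hq
      have hq0 : (1 : ℝ) ≤ q := by exact_mod_cast hq.1
      have h4 : (q : ℝ) * (q : ℝ) ^ (-1 + E.τ / 4) = (q : ℝ) ^ (E.τ / 4) := by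
        nth_rewrite 1 [← Real.rpow_one (q : ℝ)]
        rw [← Real.rpow_add (by linarith)]
        congr 1
        ring
      have h5 : 1 ≤ (q : ℝ) ^ (E.τ / 4) := Real.one_le_rpow hq0 (by have := E.hτ; positivity)
      calc E.gh j q = E.gh j q * 1 := (mul_one _).symm
        _ ≤ E.gh j q * (q : ℝ) ^ (E.τ / 4) := mul_le_mul_of_nonneg_left h5 (hh0 q)
        _ = (q * E.gh j q) * (q : ℝ) ^ (-1 + E.τ / 4) := by rw [← h4]; ring
    have h6 := Env.harm_le j
    have h7 : 0 ≤ ∑ x ∈ Icc (1 : ℕ) (2 ^ j), E.gh j x := sum_nonneg fun x _ => hh0 x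
    calc (∑ x ∈ Icc (1 : ℕ) (2 ^ j), E.gh j x) * ∑ y ∈ Icc (1 : ℕ) (2 ^ j), 1 / (y : ℝ)
        ≤ (1 / j) * (1 + j) := mul_le_mul h3 h6 (sum_nonneg fun _ _ => by positivity) (by positivity)
      _ = 1 / j + 1 := by field_simp
      _ ≤ 1 + 1 := by
          have : 1 / (j : ℝ) ≤ 1 := by rw [div_le_one (by linarith)]; exact hjr
          linarith
      _ = 2 := by norm_num
  rw [hsplit]
  linarith

end Pool.Agent.R888.CM
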