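import Pool.Agent.R888.CM.Defs
import Pool.Agent.W76.MO.Asm1
import Pool.Agent.W683.MO.SP

/-!
# The key inequality for the cells (completely multiplicative version)
-/

set_option autoImplicit false

namespace Pool.Agent.R888.CM

open Finset Filter Topology
open scoped Classical
open Pool.Agent.W76.MO

variable (E : Env)

/-- total mass of first order at `n` -/
noncomputable def tauC (j n : ℕ) : ℝ := (1 / (n : ℝ)) * TT (I n) (fun x => x.1 * E.g j x.1)

/-- total mass at `n` -/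
noncomputable def massC (j n : ℕ) : ℝ := (1 / (n : ℝ)) * cm (fun p => 1 + p * E.g j p) n

/-- the large part of the mass at `n` -/
noncomputable def bigC (j i n : ℕ) : ℝ :=
  ∑ p ∈ n.primeFactors.filter (fun p : ℕ => (2 : ℝ) ^ (3 / 5 * (i : ℝ)) < p),
      E.gu j p * (E3 E j (n / p) / ((n / p : ℕ) : ℝ)) +
  ∑ q ∈ n.primeFactors.filter (fun q : ℕ => (2 : ℝ) ^ (1 / 20 * (i : ℝ)) < q),
      (n.factorization q : ℝ) * (E.gh j q * (E3 E j (n / q) / ((n / q : ℕ) : ℝ)))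

lemma fact_one {i n p : ℕ} (hi : 5 ≤ i) (hn : n ≤ 2 ^ (i + 1)) (hp : p ∈ n.primeFactors)
    (hp2 : (2 : ℝ) ^ (3 / 5 * (i : ℝ)) < p) : n.factorization p = 1 := by
  have hpp := Nat.prime_of_mem_primeFactors hp
  have hpn := Nat.dvd_of_mem_primeFactors hp
  have hn0 : n ≠ 0 := by
    rintro rfl
    simp at hp
  have h1 : 0 < n.factorization p := hpp.factorization_pos_of_dvd hn0 hpn
  by_contra hne
  have h2 : 2 ≤ n.factorization p := by omega
  have h3 : p ^ 2 ∣ n := (pow_dvd_pow p h2).trans (Nat.ordProj_dvd n p)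
  have h4 : p ^ 2 ≤ n := Nat.le_of_dvd (by omega) h3
  have h5 : ((p : ℝ)) ^ 2 ≤ 2 ^ (i + 1) := by exact_mod_cast h4.trans hn
  have h6 : ((2 : ℝ) ^ (3 / 5 * (i : ℝ))) ^ 2 < (p : ℝ) ^ 2 :=
    pow_lt_pow_left₀ hp2 (by positivity) (by norm_num)
  have h7 : ((2 : ℝ) ^ (3 / 5 * (i : ℝ))) ^ 2 = (2 : ℝ) ^ (6 / 5 * (i : ℝ)) := by
    rw [← Real.rpow_natCast, ← Real.rpow_mul (by norm_num)]
    congr 1
    push_cast
    ring
  have h8 : (2 : ℝ) ^ (i + 1) = (2 : ℝ) ^ ((i : ℝ) + 1) := by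
    rw [← Real.rpow_natCast]
    push_cast
    rfl
  rw [h7] at h6
  rw [h8] at h5
  have h9 := (Real.rpow_lt_rpow_left_iff (x := 2) (by norm_num)).1 (h6.trans_le h5)
  have h10 : (5 : ℝ) ≤ i := by exact_mod_cast hi
  linarith

lemma bigC_eq (j i n : ℕ) (hi : 5 ≤ i) (hn0 : n ≠ 0) (hn : n ≤ 2 ^ (i + 1))
    (hu : ∀ p, 0 ≤ E.gu j p) (hh : ∀ p, 0 ≤ E.gh j p) :
    (1 / (n : ℝ)) * ∑ x ∈ I n, (x.1 * E.gl j i x.1) *
      ∏ y ∈ (I n).erase x, (1 + 2 * (y.1 * E.gl j i y.1 + y.1 * E.gs j i y.1)) = bigC E j i n := by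
  have ha : ∀ p ∈ n.primeFactors, 0 < (fun p : ℕ => 1 + 2 * (p * E.gl j i p + p * E.gs j i p)) p := by
    intro p _
    have h1 := mul_nonneg (Nat.cast_nonneg (α := ℝ) p) (E.gl_nonneg j i p (hu p) (hh p))
    have h2 := mul_nonneg (Nat.cast_nonneg (α := ℝ) p) (E.gs_nonneg j i p (hu p) (hh p))
    simp only
    linarith
  have e0 := sum_I (fun p => p * E.gl j i p)
    (fun p : ℕ => 1 + 2 * (p * E.gl j i p + p * E.gs j i p)) n ha
  rw [e0]
  unfold bigC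
  rw [sum_filter, sum_filter, ← sum_add_distrib, mul_sum]
  refine sum_congr rfl fun p hp => ?_
  have hpp := Nat.prime_of_mem_primeFactors hp
  have hp0 : (p : ℝ) ≠ 0 := by exact_mod_cast hpp.ne_zero
  have hn0' : (n : ℝ) ≠ 0 := by exact_mod_cast hn0
  have h1 : cm (fun p : ℕ => 1 + 2 * (p * E.gl j i p + p * E.gs j i p)) (n / p) =
      E3 E j (n / p) := by
    unfold E3
    apply cm_congr
    intro q _
    rw [← E.gl_add_gs j i q]
    ring
  rw [h1, cast_div_prime n p hp]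
  unfold Env.gl
  by_cases k1 : (2 : ℝ) ^ (3 / 5 * (i : ℝ)) < p
  · have hf := fact_one hi hn hp k1
    by_cases k2 : (2 : ℝ) ^ (1 / 20 * (i : ℝ)) < p
    · simp only [if_pos k1, if_pos k2, hf]
      push_cast
      field_simp
    · simp only [if_pos k1, if_neg k2, hf]
      push_cast
      field_simp
      ring
  · by_cases k2 : (2 : ℝ) ^ (1 / 20 * (i : ℝ)) < p
    · simp only [if_neg k1, if_pos k2]
      field_simp
      ring
    · simp only [if_neg k1, if_neg k2]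
      ring

/-- pointwise bounds -/
lemma pointC (j i n : ℕ) (hi : 5 ≤ i) (hn0 : n ≠ 0) (hn : n ≤ 2 ^ (i + 1))
    (hu : ∀ p, 0 ≤ E.gu j p) (hh : ∀ p, 0 ≤ E.gh j p) :
    tauC E j n ≤ bigC E j i n + (1 / (n : ℝ)) * cm (fun p => 1 + 2 * (p * E.gs j i p)) n ∧
    massC E j n ≤ 2 * bigC E j i n +
      (1 / (n : ℝ)) * cm (fun p => 1 + 2 * (p * E.gs j i p)) n ∧
    0 ≤ tauC E j n := by
  have hs := split_all (I n) (fun x => x.1 * E.gl j i x.1) (fun x => x.1 * E.gs j i x.1)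
    (fun x => mul_nonneg (Nat.cast_nonneg x.1) (E.gl_nonneg j i x.1 (hu x.1) (hh x.1)))
    (fun x => mul_nonneg (Nat.cast_nonneg x.1) (E.gs_nonneg j i x.1 (hu x.1) (hh x.1)))
  have e1 : (fun x : Σ _ : ℕ, ℕ => (x.1 : ℝ) * E.gl j i x.1 + (x.1 : ℝ) * E.gs j i x.1) =
      fun x : Σ _ : ℕ, ℕ => (x.1 : ℝ) * E.g j x.1 := by
    funext x
    rw [← E.gl_add_gs j i x.1]; ring
  have hbig := bigC_eq E j i n hi hn0 hn hu hh
  have hn1 : (0 : ℝ) ≤ 1 / (n : ℝ) := by positivity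
  obtain ⟨_, h1, h2⟩ := hs
  simp only [e1] at h1 h2
  have e2 : ∏ x ∈ I n, (1 + ((x.1 : ℝ) * E.gl j i x.1 + (x.1 : ℝ) * E.gs j i x.1)) =
      cm (fun p => 1 + p * E.g j p) n := by
    rw [prod_I (fun p => 1 + ((p : ℝ) * E.gl j i p + (p : ℝ) * E.gs j i p))]
    apply cm_congr
    intro p _
    rw [← E.gl_add_gs j i p]; ring
  have e3 : ∏ x ∈ I n, (1 + 2 * ((x.1 : ℝ) * E.gs j i x.1)) =
      cm (fun p => 1 + 2 * (p * E.gs j i p)) n :=
    prod_I (fun p => 1 + 2 * ((p : ℝ) * E.gs j i p)) n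
  rw [e2] at h2
  rw [e3] at h1 h2
  have hT : 0 ≤ TT (I n) (fun x => (x.1 : ℝ) * E.g j x.1) := by
    refine TT_nonneg _ _ fun x => mul_nonneg (Nat.cast_nonneg x.1) ?_
    rw [← E.gl_add_gs j i x.1]
    exact add_nonneg (E.gl_nonneg j i x.1 (hu x.1) (hh x.1)) (E.gs_nonneg j i x.1 (hu x.1) (hh x.1))
  refine ⟨?_, ?_, mul_nonneg hn1 hT⟩
  · unfold tauC
    refine (mul_le_mul_of_nonneg_left h1 hn1).trans (le_of_eq ?_)
    rw [mul_add, ← hbig]
  · unfold massC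
    have h3 : cm (fun p => 1 + p * E.g j p) n ≤
        2 * ∑ x ∈ I n, (x.1 * E.gl j i x.1) *
          ∏ y ∈ (I n).erase x, (1 + 2 * (y.1 * E.gl j i y.1 + y.1 * E.gs j i y.1)) +
        cm (fun p => 1 + 2 * (p * E.gs j i p)) n := by linarith
    refine (mul_le_mul_of_nonneg_left h3 hn1).trans (le_of_eq ?_)
    rw [mul_add, ← hbig]
    ring

/-- the key inequality for the cells, packaged -/
structure KeyC (R j : ℕ) : Prop where
  u0 : ∀ p, 0 ≤ E.gu j p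
  h0 : ∀ p, 0 ≤ E.gh j p
  tau_cell : ∀ i k : ℕ, j ≤ i → k < nc E.δ i →
    ∑ n ∈ cs E R i k, tauC E j n ≤ E.w i + E.w i / 4
  mass_cell : ∀ i k : ℕ, j ≤ i → k < nc E.δ i → ∑ n ∈ cs E R i k, massC E j n ≤ 4 * E.w i
  inv_cell : ∀ i k : ℕ, j ≤ i → k < nc E.δ i → ∑ n ∈ cs E R i k, 1 / (n : ℝ) ≤ E.w i / 4

theorem keyC (hGB : E.GBounds) (hU : UPart E) (hH : HPart E) (hS : SPart E) :
    ∃ R₀ : ℕ, ∀ R : ℕ, R₀ ≤ R → ∃ J : ℕ, ∀ j : ℕ, J ≤ j → KeyC E R j := by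
  obtain ⟨J0, hJ0, hGB⟩ := hGB
  obtain ⟨R1, hU⟩ := hU
  obtain ⟨R2, hH⟩ := hH
  obtain ⟨J3, hS⟩ := hS
  refine ⟨max R1 R2, fun R hR => ?_⟩
  obtain ⟨J1, hU⟩ := hU R ((le_max_left _ _).trans hR)
  obtain ⟨J2, hH⟩ := hH R ((le_max_right _ _).trans hR)
  refine ⟨J0 + J1 + J2 + J3 + 5, fun j hj => ?_⟩
  have hj0 : J0 ≤ j := by omega
  have hj1 : J1 ≤ j := by omega
  have hj2 : J2 ≤ j := by omega
  have hj3 : J3 ≤ j := by omega
  obtain ⟨_, hu0, hh0, _⟩ := hGB j hj0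
  have hgs : ∀ i p : ℕ, 0 ≤ (p : ℝ) * E.gs j i p := fun i p =>
    mul_nonneg (Nat.cast_nonneg (α := ℝ) p) (E.gs_nonneg j i p (hu0 p) (hh0 p))
  -- the three sums over a cell
  have hbig : ∀ i k : ℕ, j ≤ i → k < nc E.δ i →
      ∑ n ∈ cs E R i k, bigC E j i n ≤ E.w i + E.w i / 8 := by
    intro i k hi hk
    have a1 := hU j hj1 i hi k hk
    have a2 := hH j hj2 i hi k hk
    unfold bigC
    rw [sum_add_distrib]
    refine (add_le_add a1 a2).trans (le_of_eq ?_)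
    split_ifs <;> ring
  have hsm : ∀ i k : ℕ, j ≤ i → k < nc E.δ i →
      ∑ n ∈ cs E R i k, (1 / (n : ℝ)) * cm (fun p => 1 + 2 * (p * E.gs j i p)) n ≤
        E.w i / 16 := by
    intro i k hi hk
    refine le_trans (sum_le_sum_of_subset_of_nonneg ?_ ?_) (hS j hj3 i hi k hk)
    · intro n hn
      unfold cs at hn
      rw [mem_filter] at hn
      exact hn.1
    · intro n _ _
      refine mul_nonneg (by positivity) (cm_nonneg fun p _ => ?_)
      have := hgs i p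
      linarith
  have hsq : ∀ i k n : ℕ, k < nc E.δ i → n ∈ cs E R i k → n ≠ 0 ∧ n ≤ 2 ^ (i + 1) :=
    fun i k n hk hn => by
    unfold cs at hn
    have h := Pool.Agent.W683.MO.cell_sub E.hδ.le hk (mem_filter.1 hn).1
    exact ⟨by omega, h.2⟩
  refine ⟨hu0, hh0, ?_, ?_, ?_⟩
  · intro i k hi hk
    have hw := E.w_pos i (hJ0.trans (hj0.trans hi))
    calc ∑ n ∈ cs E R i k, tauC E j n
        ≤ ∑ n ∈ cs E R i k, (bigC E j i n +
            (1 / (n : ℝ)) * cm (fun p => 1 + 2 * (p * E.gs j i p)) n) :=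
          sum_le_sum fun n hn => (pointC E j i n (by omega) (hsq i k n hk hn).1
            (hsq i k n hk hn).2 hu0 hh0).1
      _ ≤ (E.w i + E.w i / 8) + E.w i / 16 := by
          rw [sum_add_distrib]
          exact add_le_add (hbig i k hi hk) (hsm i k hi hk)
      _ ≤ _ := by linarith
  · intro i k hi hk
    have hw := E.w_pos i (hJ0.trans (hj0.trans hi))
    calc ∑ n ∈ cs E R i k, massC E j n
        ≤ ∑ n ∈ cs E R i k, (2 * bigC E j i n +
            (1 / (n : ℝ)) * cm (fun p => 1 + 2 * (p * E.gs j i p)) n) :=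
          sum_le_sum fun n hn => (pointC E j i n (by omega) (hsq i k n hk hn).1
            (hsq i k n hk hn).2 hu0 hh0).2.1
      _ ≤ 2 * (E.w i + E.w i / 8) + E.w i / 16 := by
          rw [sum_add_distrib, ← mul_sum]
          exact add_le_add (mul_le_mul_of_nonneg_left (hbig i k hi hk) (by norm_num))
            (hsm i k hi hk)
      _ ≤ _ := by linarith
  · intro i k hi hk
    have hw := E.w_pos i (hJ0.trans (hj0.trans hi))
    calc ∑ n ∈ cs E R i k, 1 / (n : ℝ)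
        ≤ ∑ n ∈ cs E R i k, (1 / (n : ℝ)) * cm (fun p => 1 + 2 * (p * E.gs j i p)) n := by
          refine sum_le_sum fun n _ => ?_
          have h1 : 1 ≤ cm (fun p => 1 + 2 * (p * E.gs j i p)) n := one_le_cm fun p _ => by
            have := hgs i p
            linarith
          have h2 : (0 : ℝ) ≤ 1 / (n : ℝ) := by positivity
          nlinarith
      _ ≤ E.w i / 16 := hsm i k hi hk
      _ ≤ _ := by linarith

end Pool.Agent.R888.CM
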