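import Pool.Agent.R888.CM.Cm

/-!
# Pointwise inequalities for products (general index type)
-/

set_option autoImplicit false

namespace Pool.Agent.R888.CM

open Finset
open scoped Classical

section
variable {ι : Type} [DecidableEq ι]

/-- first order mass -/
noncomputable def TT (P : Finset ι) (G : ι → ℝ) : ℝ := ∑ p ∈ P, G p * ∏ q ∈ P.erase p, (1 + G q)

lemma sum_insert_erase (a : ι) (P : Finset ι) (ha : a ∉ P) (u v : ι → ℝ) :
    ∑ p ∈ insert a P, u p * ∏ q ∈ (insert a P).erase p, v q =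
      u a * ∏ q ∈ P, v q + v a * ∑ p ∈ P, u p * ∏ q ∈ P.erase p, v q := by
  rw [sum_insert ha, erase_insert ha, mul_sum]
  congr 1
  refine sum_congr rfl fun p hp => ?_
  have hne : a ≠ p := fun h => ha (h ▸ hp)
  rw [erase_insert_of_ne hne, prod_insert (fun h => ha (mem_of_mem_erase h))]
  ring

lemma TT_insert (a : ι) (P : Finset ι) (ha : a ∉ P) (G : ι → ℝ) :
    TT (insert a P) G = G a * ∏ q ∈ P, (1 + G q) + (1 + G a) * TT P G :=
  sum_insert_erase a P ha G (fun q => 1 + G q)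

lemma TT_nonneg (P : Finset ι) (G : ι → ℝ) (hG : ∀ p, 0 ≤ G p) : 0 ≤ TT P G :=
  sum_nonneg fun p _ => mul_nonneg (hG p) (prod_nonneg fun q _ => by linarith [hG q])

lemma one_le_prod1 (P : Finset ι) (v : ι → ℝ) (hv : ∀ p, 0 ≤ v p) : 1 ≤ ∏ p ∈ P, (1 + v p) := by
  induction P using Finset.induction_on with
  | empty => simp
  | insert a P ha ih =>
    rw [prod_insert ha]
    nlinarith [hv a]

lemma split_all (P : Finset ι) (u s : ι → ℝ) (hu : ∀ p, 0 ≤ u p) (hs : ∀ p, 0 ≤ s p) :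
    (∏ p ∈ P, (1 + (u p + s p)) + TT P (fun p => u p + s p) ≤ ∏ p ∈ P, (1 + 2 * (u p + s p))) ∧
    (TT P (fun p => u p + s p) ≤ ∑ p ∈ P, u p * ∏ q ∈ P.erase p, (1 + 2 * (u q + s q)) +
      ∏ p ∈ P, (1 + 2 * s p)) ∧
    (∏ p ∈ P, (1 + (u p + s p)) + TT P (fun p => u p + s p) ≤
      2 * ∑ p ∈ P, u p * ∏ q ∈ P.erase p, (1 + 2 * (u q + s q)) + ∏ p ∈ P, (1 + 2 * s p)) := by
  induction P using Finset.induction_on with
  | empty => simp [TT]
  | insert a P ha ih =>
    rw [TT_insert a P ha, sum_insert_erase a P ha u (fun q => 1 + 2 * (u q + s q)),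
      prod_insert ha, prod_insert ha, prod_insert ha]
    obtain ⟨h0, h1, h2⟩ := ih
    have hua := hu a
    have hsa := hs a
    have hE1 : 1 ≤ ∏ p ∈ P, (1 + (u p + s p)) := one_le_prod1 P _ fun p => add_nonneg (hu p) (hs p)
    have hT : 0 ≤ TT P (fun p => u p + s p) := TT_nonneg P _ fun p => add_nonneg (hu p) (hs p)
    have hA : 0 ≤ ∑ p ∈ P, u p * ∏ q ∈ P.erase p, (1 + 2 * (u q + s q)) :=
      sum_nonneg fun p _ => mul_nonneg (hu p) (prod_nonneg fun q _ => by linarith [hu q, hs q])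
    have hB : 1 ≤ ∏ p ∈ P, (1 + 2 * s p) := one_le_prod1 P (fun p => 2 * s p) fun p => by linarith [hs p]
    set E1 := ∏ p ∈ P, (1 + (u p + s p)) with hE1d
    set T := TT P (fun p => u p + s p) with hTd
    set E2 := ∏ p ∈ P, (1 + 2 * (u p + s p)) with hE2d
    set A := ∑ p ∈ P, u p * ∏ q ∈ P.erase p, (1 + 2 * (u q + s q)) with hAd
    set B := ∏ p ∈ P, (1 + 2 * s p) with hBd
    have k1 : 0 ≤ u a * (E2 - (E1 + T)) := mul_nonneg hua (by linarith)
    have k2 : 0 ≤ s a * (E2 - (E1 + T)) := mul_nonneg hsa (by linarith)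
    have k3 : 0 ≤ s a * (2 * A + B - (E1 + T)) := mul_nonneg hsa (by linarith)
    have k4 : 0 ≤ u a * A := mul_nonneg hua hA
    have k5 : 0 ≤ s a * B := mul_nonneg hsa (by linarith)
    have k6 : 0 ≤ u a * T := mul_nonneg hua hT
    have k7 : 0 ≤ s a * T := mul_nonneg hsa hT
    have k8 : 0 ≤ s a * A := mul_nonneg hsa hA
    have k9 : 0 ≤ u a * E1 := mul_nonneg hua (by linarith)
    have k10 : 0 ≤ u a * B := mul_nonneg hua (by linarith)
    refine ⟨?_, ?_, ?_⟩
    · nlinarith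
    · nlinarith
    · nlinarith

/-- perturbation of a product -/
lemma perturb (P : Finset ι) (x g g' G : ι → ℝ) (ε : ℝ) (hx : ∀ p, 0 ≤ x p)
    (hε : 0 ≤ ε) (hg : ∀ p, |g p| ≤ G p) (hg' : ∀ p, |g' p| ≤ G p)
    (hgg : ∀ p, |g p - g' p| ≤ ε * G p) :
    (|∏ p ∈ P, (g p - x p)| ≤ ∏ p ∈ P, (x p + G p)) ∧
    (|∏ p ∈ P, (g p - x p) - ∏ p ∈ P, (g' p - x p)| ≤
      ε * ∑ p ∈ P, G p * ∏ q ∈ P.erase p, (x q + G q)) := by
  have hG : ∀ p, 0 ≤ G p := fun p => (abs_nonneg _).trans (hg p)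
  have hb : ∀ p, |g p - x p| ≤ x p + G p := fun p => by
    have h1 := abs_sub (g p) (x p)
    rw [abs_of_nonneg (hx p)] at h1
    linarith [hg p]
  have hb' : ∀ p, |g' p - x p| ≤ x p + G p := fun p => by
    have h1 := abs_sub (g' p) (x p)
    rw [abs_of_nonneg (hx p)] at h1
    linarith [hg' p]
  induction P using Finset.induction_on with
  | empty => simp
  | insert a P ha ih =>
    obtain ⟨h1, h2⟩ := ih
    rw [sum_insert_erase a P ha G (fun q => x q + G q), prod_insert ha, prod_insert ha,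
      prod_insert ha]
    set A := ∏ p ∈ P, (g p - x p) with hA
    set A' := ∏ p ∈ P, (g' p - x p) with hA'
    set B := ∏ p ∈ P, (x p + G p) with hB
    set S := ∑ p ∈ P, G p * ∏ q ∈ P.erase p, (x q + G q) with hS
    have hB0 : 0 ≤ B := (abs_nonneg _).trans h1
    have hxa : 0 ≤ x a + G a := add_nonneg (hx a) (hG a)
    refine ⟨?_, ?_⟩
    · rw [abs_mul]
      exact mul_le_mul (hb a) h1 (abs_nonneg _) hxa
    · have e : (g a - x a) * A - (g' a - x a) * A' = (g a - g' a) * A + (g' a - x a) * (A - A') := by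
        ring
      rw [e]
      refine (abs_add_le _ _).trans ?_
      rw [abs_mul, abs_mul]
      have t1 : |g a - g' a| * |A| ≤ (ε * G a) * B :=
        mul_le_mul (hgg a) h1 (abs_nonneg _) (mul_nonneg hε (hG a))
      have t2 : |g' a - x a| * |A - A'| ≤ (x a + G a) * (ε * S) :=
        mul_le_mul (hb' a) h2 (abs_nonneg _) hxa
      calc |g a - g' a| * |A| + |g' a - x a| * |A - A'|
          ≤ (ε * G a) * B + (x a + G a) * (ε * S) := add_le_add t1 t2
        _ = ε * (G a * B + (x a + G a) * S) := by ring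

end

end Pool.Agent.R888.CM
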