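import Pool.Agent.R888.CM.First
import Pool.Agent.W76.MO.Asm5

/-!
# Solution of the system (completely multiplicative version)
-/

set_option autoImplicit false

namespace Pool.Agent.R888.CM

open Finset Filter Topology
open scoped Classical
open Pool.Agent.W76.MO

variable (E : Env)

lemma first_lip {R j : ℕ} (hRj : R ≤ 2 ^ (j - 1)) (hu0 : ∀ p, 0 ≤ E.gu j p)
    (hh0 : ∀ p, 0 ≤ E.gh j p) (hgh : ∀ q : ℕ, E.gh j q ≠ 0 → ¬ E.U j q)
    (hUBne : (E.UB j).Nonempty) (hUBp : ∀ p ∈ E.UB j, p.Prime)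
    (z z' : ℕ × ℕ → ℝ) (ε : ℝ) (hz : ∀ i, |z i| ≤ 1) (hz' : ∀ i, |z' i| ≤ 1)
    (hzz : ∀ i, |z i - z' i| ≤ ε) :
    |∑ n ∈ A0 R j, fzC E j z n - ∑ n ∈ A0 R j, fzC E j z' n -
      (8 * j : ℝ) * (z (j - 1, 0) - z' (j - 1, 0))| ≤ ε * (∑ n ∈ A0 R j, tauC E j n - 8 * j) := by
  have hg0 : ∀ p, 0 ≤ E.g j p := fun p => add_nonneg (hu0 p) (hh0 p)
  have hA0sq : ∀ n ∈ A0 R j, n ≠ 0 := fun n hn => by
    unfold A0 at hn
    rw [mem_filter, mem_Icc] at hn
    omega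
  have hsub : E.UB j ⊆ A0 R j := by
    intro p hp
    have hpp := hUBp p hp
    unfold Env.UB at hp
    rw [mem_filter, mem_Ioc] at hp
    unfold A0
    rw [mem_filter, mem_Icc]
    refine ⟨⟨hpp.one_le, hp.1.2⟩, ?_⟩
    intro q hq hqp
    have : q = p := (Nat.prime_dvd_prime_iff_eq hq hpp).1 hqp
    subst this
    have : R ≤ q := by omega
    exact_mod_cast this
  refine lip_sum (A0 R j) (E.UB j) hsub hUBne (fzC E j z) (fzC E j z') (tauC E j) ε (8 * j)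
    (z (j - 1, 0) - z' (j - 1, 0))
    (fun n hn _ => (fzC_bound E j n z z' ε hu0 hz hz' hzz (hA0sq n hn)).2) ?_
  intro p hp
  have hsq := (hUBp p hp).squarefree
  rw [fzC_sqf E j p z hsq, fzC_sqf E j p z' hsq, tauC_sqf E j p hg0 hsq]
  exact E.prime_lip j p (hUBp p hp) z z' (j - 1, 0) _ ε
    (fun y => (E.gz_first j y hgh p hp).1) (E.gz_first j z hgh p hp).2

lemma cs_ne_zero {R i k n : ℕ} (hk : k < nc E.δ i) (hn : n ∈ cs E R i k) : n ≠ 0 := by
  unfold cs at hn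
  have := (cell_loc E.δ E.hδ i k n hk (mem_filter.1 hn).1).1
  have h2 : 0 < 2 ^ i := by positivity
  omega

lemma bad_lip {R j : ℕ} (hu0 : ∀ p, 0 ≤ E.gu j p)
    (hh0 : ∀ p, 0 ≤ E.gh j p) (hgu : ∀ p : ℕ, E.gu j p ≠ 0 → E.U j p)
    (hgh : ∀ q : ℕ, E.gh j q ≠ 0 → E.H j q)
    (z z' : ℕ × ℕ → ℝ) (ε : ℝ) (hz : ∀ i, |z i| ≤ 1) (hz' : ∀ i, |z' i| ≤ 1)
    (hzz : ∀ i, |z i - z' i| ≤ ε) (i k : ℕ) (hji : j ≤ i) (hk : k < nc E.δ i)
    (hRτ : (R : ℝ) ≤ (2 : ℝ) ^ (E.τ * i))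
    (hkb : k ∈ E.Bad i) (hne : (E.Host j i k).Nonempty) :
    |∑ n ∈ cs E R i k, fzC E j z n - ∑ n ∈ cs E R i k, fzC E j z' n -
      E.w i * (z (i, k) - z' (i, k))| ≤ ε * (∑ n ∈ cs E R i k, tauC E j n - E.w i) := by
  have hg0 : ∀ p, 0 ≤ E.g j p := fun p => add_nonneg (hu0 p) (hh0 p)
  have hsub : E.Host j i k ⊆ cs E R i k := by
    intro n hn
    unfold Env.Host at hn
    rw [mem_filter] at hn
    unfold cs
    rw [mem_filter]
    refine ⟨hn.1, ?_⟩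
    intro p hp hpn
    exact hRτ.trans (hn.2.2.2.2.1 p hp hpn)
  refine lip_sum (cs E R i k) (E.Host j i k) hsub hne (fzC E j z) (fzC E j z') (tauC E j) ε
    (E.w i) (z (i, k) - z' (i, k))
    (fun n hn _ => (fzC_bound E j n z z' ε hu0 hz hz' hzz (cs_ne_zero E hk hn)).2) ?_
  intro n hn
  have hsq : Squarefree n := by
    unfold Env.Host at hn
    rw [mem_filter] at hn
    exact hn.2.2.2.1
  rw [fzC_sqf E j n z hsq, fzC_sqf E j n z' hsq, tauC_sqf E j n hg0 hsq]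
  exact E.host_lip j z z' ε hu0 hgu hgh hz hz' hzz i k n hji hkb hn

lemma good_lip {R j : ℕ} (hRj : R ≤ 2 ^ j) (hu0 : ∀ p, 0 ≤ E.gu j p)
    (hh0 : ∀ p, 0 ≤ E.gh j p) (hgh : ∀ q : ℕ, E.gh j q ≠ 0 → ¬ E.U j q)
    (z z' : ℕ × ℕ → ℝ) (ε : ℝ) (hz : ∀ i, |z i| ≤ 1) (hz' : ∀ i, |z' i| ≤ 1)
    (hzz : ∀ i, |z i - z' i| ≤ ε) (i k : ℕ) (hji : j ≤ i) (hi1 : 1 ≤ i) (hk : k < nc E.δ i)
    (hkb : k ∉ E.Bad i) :
    |∑ n ∈ cs E R i k, fzC E j z n - ∑ n ∈ cs E R i k, fzC E j z' n -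
      E.w i * (z (i, k) - z' (i, k))| ≤ ε * (∑ n ∈ cs E R i k, tauC E j n - E.w i) := by
  have hg0 : ∀ p, 0 ≤ E.g j p := fun p => add_nonneg (hu0 p) (hh0 p)
  have hir : (0 : ℝ) < i := by exact_mod_cast hi1
  have hhpos : (0 : ℝ) < hh E.δ i := by exact_mod_cast hh_pos E.δ i
  have hRi : R ≤ 2 ^ i := hRj.trans (Nat.pow_le_pow_right (by norm_num) hji)
  have hcard : 0 < (((cell E.δ i k).filter E.isU).card : ℝ) := by
    have h3 : ¬ ((((cell E.δ i k).filter E.isU).card : ℝ) < E.cU * hh E.δ i / (i : ℝ) ^ 4) := by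
      intro h3
      apply hkb
      unfold Env.Bad
      rw [mem_filter, mem_range]
      exact ⟨hk, h3⟩
    rw [not_lt] at h3
    have := E.hcU
    exact lt_of_lt_of_le (by positivity) h3
  have hne : ((cell E.δ i k).filter E.isU).Nonempty := by
    rw [← Finset.card_pos]
    exact_mod_cast hcard
  have hpr : ∀ p ∈ (cell E.δ i k).filter E.isU, p.Prime := fun p hp =>
    E.u_prime p (mem_filter.1 hp).2
  have hsub : (cell E.δ i k).filter E.isU ⊆ cs E R i k := by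
    intro p hp
    have hpp := hpr p hp
    rw [mem_filter] at hp
    unfold cs
    rw [mem_filter]
    refine ⟨hp.1, ?_⟩
    intro q hq hqp
    have : q = p := (Nat.prime_dvd_prime_iff_eq hq hpp).1 hqp
    subst this
    have h4 := (cell_loc E.δ E.hδ i k q hk hp.1).1
    have : R ≤ q := by omega
    exact_mod_cast this
  refine lip_sum (cs E R i k) ((cell E.δ i k).filter E.isU) hsub hne (fzC E j z)
    (fzC E j z') (tauC E j) ε (E.w i) (z (i, k) - z' (i, k))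
    (fun n hn _ => (fzC_bound E j n z z' ε hu0 hz hz' hzz (cs_ne_zero E hk hn)).2) ?_
  intro p hp
  have hp' := mem_filter.1 hp
  have hsq := (hpr p hp).squarefree
  rw [fzC_sqf E j p z hsq, fzC_sqf E j p z' hsq, tauC_sqf E j p hg0 hsq]
  exact E.prime_lip j p (hpr p hp) z z' (i, k) _ ε
    (fun y => (E.gz_good j y hgh hh0 i k p hji hk hkb hp'.1 hp'.2).1)
    (E.gz_good j z hgh hh0 i k p hji hk hkb hp'.1 hp'.2).2

theorem system (hGB : E.GBounds) (hHC : E.HCount)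
    (hKey : ∃ R₀ : ℕ, ∀ R : ℕ, R₀ ≤ R → ∃ J : ℕ, ∀ j : ℕ, J ≤ j → KeyC E R j) :
    ∃ (R j : ℕ) (z : ℕ × ℕ → ℝ), (∀ x, |z x| ≤ 1) ∧ 2 ≤ R ∧ 10 ≤ j ∧ KeyC E R j ∧
      ∑ n ∈ A0 R j, fzC E j z n = 0 ∧
      ∀ i k : ℕ, j ≤ i → k < nc E.δ i → ∑ n ∈ cs E R i k, fzC E j z n = 0 := by
  obtain ⟨R₀, hKey⟩ := hKey
  obtain ⟨R, hR⟩ : ∃ R : ℕ, R = max R₀ 2 := ⟨_, rfl⟩
  obtain ⟨J1, hKey⟩ := hKey R (hR ▸ le_max_left _ _)
  obtain ⟨J2, hJ2, hfirst⟩ := tau_first E hGB R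
  obtain ⟨J3, hHC⟩ := hHC
  obtain ⟨J4, hJ4⟩ := ge_of_rpow_ge E.τ E.hτ R
  obtain ⟨J5, hJ5, hGB⟩ := hGB
  obtain ⟨j, hj⟩ : ∃ j : ℕ, j = J1 + J2 + J3 + J4 + J5 + R + 10 := ⟨_, rfl⟩
  have hKj := hKey j (by omega)
  obtain ⟨hUBne, hUBp, htau1⟩ := hfirst j (by omega)
  obtain ⟨hUB, hu0, hh0, hgu, hgh, hguU, hghq, hsum1, hsum2⟩ := hGB j (by omega)
  have hg0 : ∀ p, 0 ≤ E.g j p := fun p => add_nonneg (hu0 p) (hh0 p)
  have hj1 : 1 ≤ j := by omega
  have hjr : (1 : ℝ) ≤ j := by exact_mod_cast hj1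
  have hRj : R ≤ 2 ^ (j - 1) := by
    have h1 : R ≤ j - 1 := by omega
    exact h1.trans (Nat.lt_two_pow_self).le
  -- the system
  let F : (ℕ × ℕ → ℝ) → ℕ × ℕ → ℝ := fun z x =>
    if x = (j - 1, 0) then ∑ n ∈ A0 R j, fzC E j z n
    else if j ≤ x.1 ∧ x.2 < nc E.δ x.1 then ∑ n ∈ cs E R x.1 x.2, fzC E j z n
    else z x
  let W : ℕ × ℕ → ℝ := fun x =>
    if x = (j - 1, 0) then 8 * j else if j ≤ x.1 ∧ x.2 < nc E.δ x.1 then E.w x.1 else 1
  have hW : ∀ x, 0 < W x := by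
    intro x
    simp only [W]
    split_ifs with h1 h2
    · positivity
    · exact E.w_pos _ (hj1.trans h2.1)
    · norm_num
  have hA0sq : ∀ n ∈ A0 R j, n ≠ 0 := fun n hn => by
    unfold A0 at hn
    rw [mem_filter, mem_Icc] at hn
    omega
  have hcssq : ∀ i k n, k < nc E.δ i → n ∈ cs E R i k → n ≠ 0 := fun i k n hk hn =>
    cs_ne_zero E hk hn
  obtain ⟨z, hz1, hz0⟩ := solve F W hW (by
    intro x
    simp only [F, W]
    split_ifs with h1 h2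
    · calc |∑ n ∈ A0 R j, fzC E j 0 n| ≤ ∑ n ∈ A0 R j, |fzC E j 0 n| := abs_sum_le_sum_abs _ _
        _ = ∑ n ∈ A0 R j, 1 / (n : ℝ) := sum_congr rfl fun n hn => fzC_zero E j n hu0 (hA0sq n hn)
        _ ≤ ∑ n ∈ Icc (1 : ℕ) (2 ^ j), 1 / (n : ℝ) := by
            apply sum_le_sum_of_subset_of_nonneg (filter_subset _ _)
            intro n _ _
            positivity
        _ ≤ 1 + j := Env.harm_le j
        _ ≤ 8 * j / 4 := by linarith
    · calc |∑ n ∈ cs E R x.1 x.2, fzC E j 0 n| ≤ ∑ n ∈ cs E R x.1 x.2, |fzC E j 0 n| :=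
            abs_sum_le_sum_abs _ _
        _ = ∑ n ∈ cs E R x.1 x.2, 1 / (n : ℝ) :=
            sum_congr rfl fun n hn => fzC_zero E j n hu0 (hcssq _ _ n h2.2 hn)
        _ ≤ E.w x.1 / 4 := hKj.inv_cell x.1 x.2 h2.1 h2.2
    · simp) (by
    intro z z' ε hz hz' hzz x
    have hε : 0 ≤ ε := (abs_nonneg _).trans (hzz (0, 0))
    simp only [F, W]
    split_ifs with h1 h2
    · -- the first block
      subst h1
      refine (first_lip E hRj hu0 hh0 (fun q hq => (hgh q hq).2.1) hUBne hUBp z z' ε hz hz'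
        hzz).trans (mul_le_mul_of_nonneg_left ?_ hε)
      linarith
    · -- a cell
      obtain ⟨i, k⟩ := x
      simp only at h2 ⊢
      obtain ⟨hji, hk⟩ := h2
      have htau := hKj.tau_cell i k hji hk
      by_cases hkb : k ∈ E.Bad i
      · -- bad cell
        have hne : (E.Host j i k).Nonempty := by
          rw [← Finset.card_pos]
          have h3 := hHC j (by omega) i hji k hkb
          have h4 : 0 < E.cH / 2 * hh E.δ i / i := by
            have := E.hcH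
            have hhpos : (0 : ℝ) < hh E.δ i := by exact_mod_cast hh_pos E.δ i
            have hir : (0 : ℝ) < i := by exact_mod_cast hj1.trans hji
            positivity
          exact_mod_cast h4.trans_le h3
        refine (bad_lip E hu0 hh0 hgu (fun q hq => (hgh q hq).1) z z' ε hz hz' hzz i k hji hk
          (hJ4 i (by omega)) hkb hne).trans (mul_le_mul_of_nonneg_left ?_ hε)
        linarith
      · -- good cell
        refine (good_lip E (hRj.trans (Nat.pow_le_pow_right (by norm_num) (by omega))) hu0 hh0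
          (fun q hq => (hgh q hq).2.1) z z' ε hz hz' hzz i k hji (hj1.trans hji) hk
          hkb).trans (mul_le_mul_of_nonneg_left ?_ hε)
        linarith
    · simp only [one_mul, sub_self, abs_zero]
      positivity)
  refine ⟨R, j, z, hz1, hR ▸ le_max_right _ _, by omega, hKj, ?_, ?_⟩
  · have h := hz0 (j - 1, 0)
    simp only [F] at h
    simpa using h
  · intro i k hi hk
    have h := hz0 (i, k)
    simp only [F] at h
    have hne : ¬ ((i, k) : ℕ × ℕ) = (j - 1, 0) := by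
      intro h1
      have : i = j - 1 := (Prod.ext_iff.1 h1).1
      omega
    rw [if_neg hne, if_pos ⟨hi, hk⟩] at h
    exact h

end Pool.Agent.R888.CM
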